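import Mathlib

/-!
# Complex subordination formula

`∫_0^∞ s^(-1/2) exp(iπ s τ²) exp(iπ r²/s) ds = e^(iπ/4) τ⁻¹ exp(2π i r τ)`.
-/

set_option autoImplicit false

open MeasureTheory

namespace Pool.Agent.T9h82.LS

/-! ### The real subordination formula -/

/-- inverse of `y ↦ r y - a / (2 y)` -/
noncomputable def subG (a r u : ℝ) : ℝ := (u + Real.sqrt (u ^ 2 + 2 * a * r)) / (2 * r)

theorem sub_abs_lt (a r u : ℝ) (ha : 0 < a) (hr : 0 < r) :
    |u| < Real.sqrt (u ^ 2 + 2 * a * r) := by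
  rw [← Real.sqrt_sq_eq_abs]
  exact Real.sqrt_lt_sqrt (sq_nonneg u) (by have : 0 < 2 * a * r := by positivity
                                            linarith)

theorem subG_pos (a r u : ℝ) (ha : 0 < a) (hr : 0 < r) : 0 < subG a r u := by
  unfold subG
  have h := (abs_lt.mp (sub_abs_lt a r u ha hr)).1
  have : 0 < u + Real.sqrt (u ^ 2 + 2 * a * r) := by
    have h2 := neg_abs_le u
    have h3 := sub_abs_lt a r u ha hr
    linarith
  positivity

theorem subG_left (a r u : ℝ) (ha : 0 < a) (hr : 0 < r) :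
    r * subG a r u - a / (2 * subG a r u) = u := by
  have h0 := subG_pos a r u ha hr
  have hs : Real.sqrt (u ^ 2 + 2 * a * r) ^ 2 = u ^ 2 + 2 * a * r :=
    Real.sq_sqrt (by positivity)
  have hquad : r * subG a r u ^ 2 - u * subG a r u - a / 2 = 0 := by
    unfold subG
    generalize Real.sqrt (u ^ 2 + 2 * a * r) = s at hs
    field_simp
    have : s ^ 2 = u ^ 2 + 2 * a * r := hs
    linear_combination this
  generalize subG a r u = y at *
  field_simp
  linarith

theorem subG_right (a r y : ℝ) (ha : 0 < a) (hr : 0 < r) (hy : 0 < y) :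
    subG a r (r * y - a / (2 * y)) = y := by
  unfold subG
  have h1 : (r * y - a / (2 * y)) ^ 2 + 2 * a * r = (r * y + a / (2 * y)) ^ 2 := by
    field_simp
    ring
  rw [h1, Real.sqrt_sq (by positivity)]
  field_simp
  ring

theorem subG_deriv (a r u : ℝ) (ha : 0 < a) (hr : 0 < r) :
    HasDerivAt (subG a r) ((1 + u / Real.sqrt (u ^ 2 + 2 * a * r)) / (2 * r)) u := by
  unfold subG
  have h0 : u ^ 2 + 2 * a * r ≠ 0 := by positivity
  have h1 : HasDerivAt (fun u : ℝ => u ^ 2 + 2 * a * r) (2 * u) u := by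
    have := ((hasDerivAt_id u).pow 2).add_const (2 * a * r)
    simpa using this
  have h2 := h1.sqrt h0
  have h3 := ((hasDerivAt_id u).add h2).div_const (2 * r)
  refine h3.congr_deriv ?_
  congr 2
  rw [mul_div_mul_left _ _ (by norm_num : (2 : ℝ) ≠ 0)]

theorem sub_gauss (a r : ℝ) (ha : 0 < a) (hr : 0 < r) :
    ∫ u : ℝ, (1 + u / Real.sqrt (u ^ 2 + 2 * a * r)) * Real.exp (-u ^ 2) =
      Real.sqrt Real.pi := by
  have hint : Integrable (fun u : ℝ => Real.exp (-u ^ 2)) := by
    have := integrable_exp_neg_mul_sq (b := 1) one_pos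
    simpa using this
  have hc : Continuous (fun u : ℝ => u / Real.sqrt (u ^ 2 + 2 * a * r)) := by
    refine continuous_id.div ?_ ?_
    · fun_prop
    · intro u
      have : 0 < u ^ 2 + 2 * a * r := by positivity
      exact (Real.sqrt_pos.mpr this).ne'
  have hint2 : Integrable (fun u : ℝ => u / Real.sqrt (u ^ 2 + 2 * a * r) * Real.exp (-u ^ 2)) := by
    refine hint.mono' ?_ ?_
    · exact (hc.mul (by fun_prop)).aestronglyMeasurable
    · refine Filter.Eventually.of_forall fun u => ?_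
      have hp : 0 < Real.sqrt (u ^ 2 + 2 * a * r) := Real.sqrt_pos.mpr (by positivity)
      rw [norm_mul, norm_div, Real.norm_eq_abs, Real.norm_eq_abs, Real.norm_eq_abs,
        abs_of_pos hp, abs_of_pos (Real.exp_pos _)]
      have : |u| / Real.sqrt (u ^ 2 + 2 * a * r) ≤ 1 := by
        rw [div_le_one hp]
        exact (sub_abs_lt a r u ha hr).le
      calc |u| / Real.sqrt (u ^ 2 + 2 * a * r) * Real.exp (-u ^ 2) ≤ 1 * Real.exp (-u ^ 2) :=
            mul_le_mul_of_nonneg_right this (Real.exp_pos _).le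
        _ = _ := one_mul _
  have hodd : ∫ u : ℝ, u / Real.sqrt (u ^ 2 + 2 * a * r) * Real.exp (-u ^ 2) = 0 := by
    have h := integral_neg_eq_self
      (fun u : ℝ => u / Real.sqrt (u ^ 2 + 2 * a * r) * Real.exp (-u ^ 2)) volume
    have h2 : ∀ u : ℝ, (-u) / Real.sqrt ((-u) ^ 2 + 2 * a * r) * Real.exp (-(-u) ^ 2) =
        -(u / Real.sqrt (u ^ 2 + 2 * a * r) * Real.exp (-u ^ 2)) := by
      intro u
      rw [neg_sq]
      ring
    simp only [h2] at h
    rw [integral_neg] at h
    linarith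
  have hsplit : ∀ u : ℝ, (1 + u / Real.sqrt (u ^ 2 + 2 * a * r)) * Real.exp (-u ^ 2) =
      Real.exp (-u ^ 2) + u / Real.sqrt (u ^ 2 + 2 * a * r) * Real.exp (-u ^ 2) := by
    intro u; ring
  simp_rw [hsplit]
  rw [integral_add hint hint2, hodd, add_zero]
  have := integral_gaussian 1
  simpa using this

theorem subord (a r : ℝ) (ha : 0 < a) (hr : 0 < r) :
    ∫ y in Set.Ioi (0 : ℝ), Real.exp (-(y ^ 2 * r ^ 2) - a ^ 2 / (4 * y ^ 2)) =
      Real.sqrt Real.pi / 2 * (Real.exp (-(a * r)) / r) := by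
  have himg : subG a r '' Set.univ = Set.Ioi 0 := by
    ext y
    constructor
    · rintro ⟨u, _, rfl⟩
      exact subG_pos a r u ha hr
    · intro hy
      exact ⟨r * y - a / (2 * y), Set.mem_univ _, subG_right a r y ha hr hy⟩
  have hinj : Set.InjOn (subG a r) Set.univ := by
    intro u _ v _ huv
    rw [← subG_left a r u ha hr, huv, subG_left a r v ha hr]
  rw [← himg, integral_image_eq_integral_abs_deriv_smul MeasurableSet.univ
    (fun u _ => (subG_deriv a r u ha hr).hasDerivWithinAt) hinj, Measure.restrict_univ]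
  have hpt : ∀ u : ℝ, |(1 + u / Real.sqrt (u ^ 2 + 2 * a * r)) / (2 * r)| •
      Real.exp (-(subG a r u ^ 2 * r ^ 2) - a ^ 2 / (4 * subG a r u ^ 2)) =
      (Real.exp (-(a * r)) / (2 * r)) *
        ((1 + u / Real.sqrt (u ^ 2 + 2 * a * r)) * Real.exp (-u ^ 2)) := by
    intro u
    have hp : 0 < Real.sqrt (u ^ 2 + 2 * a * r) := Real.sqrt_pos.mpr (by positivity)
    have h1 : 0 < 1 + u / Real.sqrt (u ^ 2 + 2 * a * r) := by
      have h2 : -1 < u / Real.sqrt (u ^ 2 + 2 * a * r) := by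
        rw [lt_div_iff₀ hp]
        have := (abs_lt.mp (sub_abs_lt a r u ha hr)).1
        linarith
      linarith
    rw [abs_of_pos (by positivity), smul_eq_mul]
    have h3 : -(subG a r u ^ 2 * r ^ 2) - a ^ 2 / (4 * subG a r u ^ 2) = -(a * r) + -u ^ 2 := by
      have h4 := subG_left a r u ha hr
      have h5 := subG_pos a r u ha hr
      generalize subG a r u = y at *
      rw [← h4]
      field_simp
      ring
    rw [h3, Real.exp_add]
    ring
  simp_rw [hpt]
  rw [integral_const_mul, sub_gauss a r ha hr]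
  field_simp

/-! ### The complex integral -/

open Set Filter Topology

/-- the integrand -/
noncomputable def ker (a b : ℂ) (t : ℝ) : ℂ :=
  Complex.exp (-(a ^ 2 * (t : ℂ) ^ 2) - b ^ 2 / (t : ℂ) ^ 2)

theorem norm_ker (a b : ℂ) (t : ℝ) :
    ‖ker a b t‖ = Real.exp (-((a ^ 2).re * t ^ 2) - (b ^ 2).re / t ^ 2) := by
  unfold ker
  rw [Complex.norm_exp]
  congr 1
  rw [Complex.sub_re, Complex.neg_re, ← Complex.ofReal_pow, Complex.re_mul_ofReal,
    Complex.div_ofReal_re]

theorem norm_ker_le (a : ℂ) {b : ℂ} (hb : 0 ≤ (b ^ 2).re) (t : ℝ) :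
    ‖ker a b t‖ ≤ Real.exp (-((a ^ 2).re) * t ^ 2) := by
  rw [norm_ker]
  apply Real.exp_le_exp.2
  have : 0 ≤ (b ^ 2).re / t ^ 2 := div_nonneg hb (sq_nonneg t)
  linarith

theorem meas_ker (a b : ℂ) : Measurable (ker a b) := by
  unfold ker
  fun_prop

theorem int_ker {a b : ℂ} (ha : 0 < (a ^ 2).re) (hb : 0 ≤ (b ^ 2).re) :
    IntegrableOn (ker a b) (Ioi 0) := by
  refine Integrable.mono' (integrable_exp_neg_mul_sq ha).integrableOn
    (meas_ker a b).aestronglyMeasurable ?_
  exact Eventually.of_forall fun t => norm_ker_le a hb t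

/-- `Psi a b = ∫_0^∞ exp(-a²t² - b²/t²) dt` -/
noncomputable def Psi (a b : ℂ) : ℂ := ∫ t in Ioi (0 : ℝ), ker a b t

/-- the cone `|arg z| < π/4` -/
def cone : Set ℂ := {z | |z.im| < z.re}

theorem isOpen_cone : IsOpen cone :=
  isOpen_lt (continuous_abs.comp Complex.continuous_im) Complex.continuous_re

theorem convex_cone : Convex ℝ cone := by
  intro x hx y hy a b ha hb hab
  have hx' : |x.im| < x.re := hx
  have hy' : |y.im| < y.re := hy
  change |(a • x + b • y).im| < (a • x + b • y).re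
  simp only [Complex.add_im, Complex.add_re, Complex.real_smul, Complex.mul_im, Complex.mul_re,
    Complex.ofReal_re, Complex.ofReal_im, zero_mul, add_zero, sub_zero]
  have h1 : |a * x.im + b * y.im| ≤ a * |x.im| + b * |y.im| := by
    refine (abs_add_le _ _).trans ?_
    rw [abs_mul, abs_mul, abs_of_nonneg ha, abs_of_nonneg hb]
  rcases eq_or_lt_of_le ha with h | h
  · have hb1 : b = 1 := by linarith
    subst hb1
    rw [← h] at h1 ⊢
    nlinarith
  · nlinarith

theorem sq_re_pos {z : ℂ} (hz : z ∈ cone) : 0 < (z ^ 2).re := by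
  have hz' : |z.im| < z.re := hz
  have h : (z ^ 2).re = z.re ^ 2 - z.im ^ 2 := by
    rw [sq, Complex.mul_re]; ring
  rw [h, sub_pos]
  exact sq_lt_sq.2 (hz'.trans_le (le_abs_self _))

theorem real_mem_cone {x : ℝ} (hx : 0 < x) : (x : ℂ) ∈ cone := by
  change |(x : ℂ).im| < (x : ℂ).re
  simpa using hx

/-- a neighbourhood on which everything is bounded -/
theorem nhd_mem {z0 : ℂ} (h : 0 < (z0 ^ 2).re) :
    {z : ℂ | (z0 ^ 2).re / 2 < (z ^ 2).re ∧ ‖z‖ < ‖z0‖ + 1} ∈ 𝓝 z0 := by
  refine IsOpen.mem_nhds ?_ ⟨by linarith, by linarith⟩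
  exact (isOpen_lt continuous_const (Complex.continuous_re.comp (continuous_pow 2))).inter
    (isOpen_lt continuous_norm continuous_const)

theorem hasDeriv_left {a b : ℂ} (ha : 0 < (a ^ 2).re) (hb : 0 ≤ (b ^ 2).re) :
    DifferentiableAt ℂ (fun z => Psi z b) a := by
  set ε := (a ^ 2).re / 2 with hε
  have hε0 : 0 < ε := by positivity
  have hint : Integrable (fun t : ℝ => 2 * (‖a‖ + 1) * (t ^ 2 * Real.exp (-ε * t ^ 2))) := by
    have h := integrable_rpow_mul_exp_neg_mul_sq hε0 (s := 2) (by norm_num)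
    simp only [Real.rpow_two] at h
    exact h.const_mul _
  have key := hasDerivAt_integral_of_dominated_loc_of_deriv_le (𝕜 := ℂ)
    (μ := volume.restrict (Ioi (0 : ℝ))) (F := fun z t => ker z b t)
    (F' := fun z t => -(2 * z * (t : ℂ) ^ 2) * ker z b t) (x₀ := a)
    (bound := fun t : ℝ => 2 * (‖a‖ + 1) * (t ^ 2 * Real.exp (-ε * t ^ 2)))
    (nhd_mem ha) (Eventually.of_forall fun z => (meas_ker z b).aestronglyMeasurable)
    (int_ker ha hb) ?_ ?_ hint.integrableOn ?_
  · exact key.2.differentiableAt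
  · exact (Measurable.mul (by fun_prop) (meas_ker a b)).aestronglyMeasurable
  · refine Eventually.of_forall fun t z hz => ?_
    obtain ⟨h1, h2⟩ := hz
    rw [norm_mul, norm_neg, norm_mul, norm_mul, norm_pow, Complex.norm_real, Real.norm_eq_abs,
      sq_abs, Complex.norm_ofNat]
    have h3 : ‖ker z b t‖ ≤ Real.exp (-ε * t ^ 2) := by
      refine (norm_ker_le z hb t).trans (Real.exp_le_exp.2 ?_)
      have := sq_nonneg t
      nlinarith
    calc 2 * ‖z‖ * t ^ 2 * ‖ker z b t‖ ≤ 2 * (‖a‖ + 1) * t ^ 2 * Real.exp (-ε * t ^ 2) := by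
          gcongr
      _ = _ := by ring
  · refine Eventually.of_forall fun t z _ => ?_
    have h1 : HasDerivAt (fun z : ℂ => -(z ^ 2 * (t : ℂ) ^ 2) - b ^ 2 / (t : ℂ) ^ 2)
        (-(2 * z * (t : ℂ) ^ 2)) z := by
      have := (((hasDerivAt_pow 2 z).mul_const ((t : ℂ) ^ 2)).neg).sub_const (b ^ 2 / (t : ℂ) ^ 2)
      simpa using this
    have h2 := h1.cexp
    refine h2.congr_deriv ?_
    unfold ker
    ring

theorem hasDeriv_right {a b : ℂ} (ha : 0 < (a ^ 2).re) (hb : 0 < (b ^ 2).re) :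
    DifferentiableAt ℂ (fun z => Psi a z) b := by
  set ε := (b ^ 2).re / 2 with hε
  have hε0 : 0 < ε := by positivity
  have hint : Integrable (fun t : ℝ => 2 * (‖b‖ + 1) / ε * Real.exp (-((a ^ 2).re) * t ^ 2)) :=
    (integrable_exp_neg_mul_sq ha).const_mul _
  have key := hasDerivAt_integral_of_dominated_loc_of_deriv_le (𝕜 := ℂ)
    (μ := volume.restrict (Ioi (0 : ℝ))) (F := fun z t => ker a z t)
    (F' := fun z t => -(2 * z / (t : ℂ) ^ 2) * ker a z t) (x₀ := b)
    (bound := fun t : ℝ => 2 * (‖b‖ + 1) / ε * Real.exp (-((a ^ 2).re) * t ^ 2))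
    (nhd_mem hb) (Eventually.of_forall fun z => (meas_ker a z).aestronglyMeasurable)
    (int_ker ha hb.le) ?_ ?_ hint.integrableOn ?_
  · exact key.2.differentiableAt
  · exact (Measurable.mul (by fun_prop) (meas_ker a b)).aestronglyMeasurable
  · filter_upwards [ae_restrict_mem measurableSet_Ioi] with t ht z hz
    obtain ⟨h1, h2⟩ := hz
    have ht0 : 0 < t := ht
    rw [norm_mul, norm_neg, norm_div, norm_mul, norm_pow, Complex.norm_real, Real.norm_eq_abs,
      sq_abs, Complex.norm_ofNat, norm_ker]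
    have h3 : Real.exp (-((a ^ 2).re * t ^ 2) - (z ^ 2).re / t ^ 2) ≤
        Real.exp (-((a ^ 2).re) * t ^ 2) * (t ^ 2 / ε) := by
      have h4 : -((a ^ 2).re * t ^ 2) - (z ^ 2).re / t ^ 2 ≤
          -((a ^ 2).re) * t ^ 2 + -(ε / t ^ 2) := by
        have : ε / t ^ 2 ≤ (z ^ 2).re / t ^ 2 := by gcongr
        linarith
      refine (Real.exp_le_exp.2 h4).trans ?_
      rw [Real.exp_add]
      refine mul_le_mul_of_nonneg_left ?_ (Real.exp_pos _).le
      rw [Real.exp_neg, inv_le_comm₀ (Real.exp_pos _) (by positivity), inv_div]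
      have := Real.add_one_le_exp (ε / t ^ 2)
      linarith
    calc 2 * ‖z‖ / t ^ 2 * Real.exp (-((a ^ 2).re * t ^ 2) - (z ^ 2).re / t ^ 2)
        ≤ 2 * (‖b‖ + 1) / t ^ 2 * (Real.exp (-((a ^ 2).re) * t ^ 2) * (t ^ 2 / ε)) := by
          gcongr
      _ = 2 * (‖b‖ + 1) / ε * Real.exp (-((a ^ 2).re) * t ^ 2) := by
          field_simp
  · filter_upwards [ae_restrict_mem measurableSet_Ioi] with t ht z _
    have h1 : HasDerivAt (fun z : ℂ => -(a ^ 2 * (t : ℂ) ^ 2) - z ^ 2 / (t : ℂ) ^ 2)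
        (-(2 * z / (t : ℂ) ^ 2)) z := by
      have := ((hasDerivAt_pow 2 z).div_const ((t : ℂ) ^ 2)).const_sub (-(a ^ 2 * (t : ℂ) ^ 2))
      simpa using this
    have h2 := h1.cexp
    refine h2.congr_deriv ?_
    unfold ker
    ring

/-- the value of the integral -/
noncomputable def val (a b : ℂ) : ℂ :=
  (Real.sqrt Real.pi : ℂ) / 2 * (Complex.exp (-(2 * a * b)) / a)

theorem psi_real {a b : ℝ} (ha : 0 < a) (hb : 0 < b) : Psi a b = val a b := by
  have h := subord (2 * b) a (by positivity) ha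
  unfold Psi val
  have e : ∀ t : ℝ, ker a b t =
      ((Real.exp (-(t ^ 2 * a ^ 2) - (2 * b) ^ 2 / (4 * t ^ 2)) : ℝ) : ℂ) := by
    intro t
    unfold ker
    rw [Complex.ofReal_exp]
    congr 1
    push_cast
    rw [mul_pow, mul_comm ((t : ℂ) ^ 2)]
    norm_num
    rw [mul_div_mul_left _ _ (by norm_num : (4 : ℂ) ≠ 0)]
  simp_rw [e]
  rw [integral_complex_ofReal, h]
  push_cast
  congr 3
  congr 1
  ring

theorem frequently_real {f g : ℂ → ℂ} (h : ∀ x : ℝ, 0 < x → f x = g x) :
    ∃ᶠ z in 𝓝[≠] (1 : ℂ), f z = g z := by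
  have h1 : Tendsto (fun x : ℝ => (x : ℂ)) (𝓝[≠] 1) (𝓝[≠] (1 : ℂ)) := by
    refine tendsto_nhdsWithin_iff.2 ⟨?_, ?_⟩
    · have := (Complex.continuous_ofReal.tendsto 1).mono_left (nhdsWithin_le_nhds (s := {1}ᶜ))
      simpa using this
    · filter_upwards [self_mem_nhdsWithin] with x hx
      intro h
      apply hx
      have : (x : ℂ) = 1 := h
      exact_mod_cast this
  refine h1.frequently ?_
  refine Eventually.frequently ?_
  have : ∀ᶠ x : ℝ in 𝓝 1, 0 < x := lt_mem_nhds one_pos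
  filter_upwards [this.filter_mono nhdsWithin_le_nhds] with x hx
  exact h x hx

theorem ne_zero_of_cone {z : ℂ} (hz : z ∈ cone) : z ≠ 0 := by
  rintro rfl
  have := sq_re_pos hz
  simp at this

theorem psi_left {a : ℂ} (ha : a ∈ cone) {b : ℝ} (hb : 0 < b) : Psi a b = val a b := by
  have hb2 : 0 ≤ ((b : ℂ) ^ 2).re := (sq_re_pos (real_mem_cone hb)).le
  have h1 : AnalyticOnNhd ℂ (fun z => Psi z b) cone := by
    refine DifferentiableOn.analyticOnNhd (fun z hz => ?_) isOpen_cone
    exact (hasDeriv_left (sq_re_pos hz) hb2).differentiableWithinAt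
  have h2 : AnalyticOnNhd ℂ (fun z => val z b) cone := by
    refine DifferentiableOn.analyticOnNhd (fun z hz => ?_) isOpen_cone
    have hz0 := ne_zero_of_cone hz
    unfold val
    refine DifferentiableAt.differentiableWithinAt ?_
    fun_prop (disch := assumption)
  exact h1.eqOn_of_preconnected_of_frequently_eq h2 convex_cone.isPreconnected
    (by simpa using real_mem_cone one_pos) (frequently_real fun x hx => psi_real hx hb) ha

theorem psi_cone {a b : ℂ} (ha : a ∈ cone) (hb : b ∈ cone) : Psi a b = val a b := by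
  have h1 : AnalyticOnNhd ℂ (fun z => Psi a z) cone := by
    refine DifferentiableOn.analyticOnNhd (fun z hz => ?_) isOpen_cone
    exact (hasDeriv_right (sq_re_pos ha) (sq_re_pos hz)).differentiableWithinAt
  have h2 : AnalyticOnNhd ℂ (fun z => val a z) cone := by
    refine DifferentiableOn.analyticOnNhd (fun z hz => ?_) isOpen_cone
    unfold val
    refine DifferentiableAt.differentiableWithinAt ?_
    fun_prop
  exact h1.eqOn_of_preconnected_of_frequently_eq h2 convex_cone.isPreconnected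
    (by simpa using real_mem_cone one_pos) (frequently_real fun x hx => psi_left ha hx) hb

/-- **Value of the integral** up to the boundary of the cone. -/
theorem psi_closed {a b : ℂ} (ha : a ∈ cone) (hb : |b.im| ≤ b.re) : Psi a b = val a b := by
  have hmem : ∀ ε : ℝ, 0 < ε → b + ε ∈ cone := by
    intro ε hε
    change |(b + (ε : ℂ)).im| < (b + (ε : ℂ)).re
    simp only [Complex.add_im, Complex.ofReal_im, add_zero, Complex.add_re, Complex.ofReal_re]
    linarith
  have hlim : Tendsto (fun ε : ℝ => b + (ε : ℂ)) (𝓝[>] 0) (𝓝 b) := by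
    have h : Tendsto (fun ε : ℝ => b + (ε : ℂ)) (𝓝 0) (𝓝 (b + ((0 : ℝ) : ℂ))) :=
      ((continuous_const.add Complex.continuous_ofReal).tendsto 0)
    rw [Complex.ofReal_zero, add_zero] at h
    exact h.mono_left nhdsWithin_le_nhds
  have hL : Tendsto (fun ε : ℝ => Psi a (b + ε)) (𝓝[>] 0) (𝓝 (Psi a b)) := by
    unfold Psi
    refine tendsto_integral_filter_of_dominated_convergence
      (fun t => Real.exp (-((a ^ 2).re) * t ^ 2)) ?_ ?_ ?_ ?_
    · exact Eventually.of_forall fun ε => (meas_ker a _).aestronglyMeasurable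
    · filter_upwards [self_mem_nhdsWithin] with ε hε
      exact Eventually.of_forall fun t => norm_ker_le a (sq_re_pos (hmem ε hε)).le t
    · exact (integrable_exp_neg_mul_sq (sq_re_pos ha)).integrableOn
    · refine Eventually.of_forall fun t => ?_
      have hc : Continuous fun z : ℂ => ker a z t := by
        unfold ker
        fun_prop
      exact (hc.tendsto b).comp hlim
  have hR : Tendsto (fun ε : ℝ => val a (b + ε)) (𝓝[>] 0) (𝓝 (val a b)) := by
    have hc : Continuous fun z : ℂ => val a z := by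
      unfold val
      fun_prop
    exact (hc.tendsto b).comp hlim
  refine tendsto_nhds_unique hL (hR.congr' ?_)
  filter_upwards [self_mem_nhdsWithin] with ε hε
  exact (psi_cone ha (hmem ε hε)).symm

theorem exp_quarter : Complex.exp (Complex.I * Real.pi / 4) =
    ((Real.sqrt 2 : ℝ) : ℂ) / 2 * (1 + Complex.I) := by
  have h : Complex.I * Real.pi / 4 = ((Real.pi / 4 : ℝ) : ℂ) * Complex.I := by
    push_cast; ring
  rw [h, Complex.exp_mul_I, ← Complex.ofReal_cos, ← Complex.ofReal_sin, Real.cos_pi_div_four,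
    Real.sin_pi_div_four]
  push_cast
  ring

/-- **Complex subordination.** -/
theorem cs (r : ℝ) (hr : 0 ≤ r) (τ : ℂ) (h1 : 0 < τ.re) (h2 : 0 < τ.im) :
    (∫ s in Set.Ioi (0 : ℝ), (((s ^ (-(1 / 2) : ℝ) : ℝ)) : ℂ) *
        Complex.exp (Complex.I * Real.pi * s * τ ^ 2) *
        Complex.exp (Complex.I * Real.pi * r ^ 2 / s)) =
      Complex.exp (Complex.I * Real.pi / 4) / τ *
        Complex.exp (2 * Real.pi * Complex.I * r * τ) := by
  have hπ := Real.pi_pos
  set c : ℝ := Real.sqrt (Real.pi / 2) with hc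
  have hc0 : 0 < c := Real.sqrt_pos.2 (by positivity)
  have hc2 : (c : ℂ) ^ 2 = Real.pi / 2 := by
    rw [← Complex.ofReal_pow, hc, Real.sq_sqrt (by positivity)]
    push_cast
    ring
  have hI : (1 - Complex.I) ^ 2 = -2 * Complex.I := by
    ring_nf
    rw [Complex.I_sq]
    ring
  set a : ℂ := c * (1 - Complex.I) * τ with ha
  set b : ℂ := c * (1 - Complex.I) * r with hb
  have hτ0 : τ ≠ 0 := by
    rintro rfl
    simp at h1
  have ha2 : a ^ 2 = -(Complex.I * Real.pi * τ ^ 2) := by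
    rw [ha, mul_pow, mul_pow, hc2, hI]
    ring
  have hb2 : b ^ 2 = -(Complex.I * Real.pi * r ^ 2) := by
    rw [hb, mul_pow, mul_pow, hc2, hI]
    ring
  have hab : -(2 * a * b) = 2 * Real.pi * Complex.I * r * τ := by
    have : a * b = (c : ℂ) ^ 2 * (1 - Complex.I) ^ 2 * (τ * r) := by rw [ha, hb]; ring
    rw [mul_assoc, this, hc2, hI]
    ring
  have hacone : a ∈ cone := by
    have e1 : a.re = c * (τ.re + τ.im) := by
      rw [ha]
      simp [Complex.mul_re, Complex.mul_im]
      ring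
    have e2 : a.im = c * (τ.im - τ.re) := by
      rw [ha]
      simp [Complex.mul_re, Complex.mul_im]
      ring
    change |a.im| < a.re
    rw [e1, e2, abs_mul, abs_of_pos hc0]
    refine mul_lt_mul_of_pos_left ?_ hc0
    rw [abs_lt]
    constructor <;> linarith
  have hbcone : |b.im| ≤ b.re := by
    have e1 : b.re = c * r := by
      rw [hb]
      simp [Complex.mul_re, Complex.mul_im]
    have e2 : b.im = -(c * r) := by
      rw [hb]
      simp [Complex.mul_re, Complex.mul_im]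
    rw [e1, e2, abs_neg, abs_of_nonneg (by positivity)]
  have hmain := psi_closed hacone hbcone
  rw [← integral_comp_rpow_Ioi_of_pos (g := fun s : ℝ => (((s ^ (-(1 / 2) : ℝ) : ℝ)) : ℂ) *
        Complex.exp (Complex.I * Real.pi * s * τ ^ 2) *
        Complex.exp (Complex.I * Real.pi * r ^ 2 / s)) (p := 2) two_pos]
  have e : ∀ x ∈ Ioi (0 : ℝ), (2 * x ^ ((2 : ℝ) - 1)) • ((((x ^ (2 : ℝ)) ^ (-(1 / 2) : ℝ) : ℝ) : ℂ) *
        Complex.exp (Complex.I * Real.pi * ((x ^ (2 : ℝ) : ℝ) : ℂ) * τ ^ 2) *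
        Complex.exp (Complex.I * Real.pi * r ^ 2 / ((x ^ (2 : ℝ) : ℝ) : ℂ))) = 2 * ker a b x := by
    intro x hx
    have hx0 : 0 < x := hx
    have h3 : (x ^ (2 : ℝ)) ^ (-(1 / 2) : ℝ) = x⁻¹ := by
      rw [← Real.rpow_mul hx0.le]
      norm_num
      exact Real.rpow_neg_one x
    have h4 : (2 : ℝ) * x ^ ((2 : ℝ) - 1) = 2 * x := by norm_num
    rw [h3, h4, Complex.real_smul]
    unfold ker
    rw [ha2, hb2, mul_assoc _ (Complex.exp _) (Complex.exp _), ← Complex.exp_add]
    have h5 : (x : ℂ) ≠ 0 := by exact_mod_cast hx0.ne'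
    have h6 : ((2 * x : ℝ) : ℂ) * (((x⁻¹ : ℝ) : ℂ) * Complex.exp
        (Complex.I * Real.pi * ((x ^ (2 : ℝ) : ℝ) : ℂ) * τ ^ 2 +
          Complex.I * Real.pi * r ^ 2 / ((x ^ (2 : ℝ) : ℝ) : ℂ))) =
        2 * Complex.exp (Complex.I * Real.pi * ((x ^ (2 : ℝ) : ℝ) : ℂ) * τ ^ 2 +
          Complex.I * Real.pi * r ^ 2 / ((x ^ (2 : ℝ) : ℝ) : ℂ)) := by
      push_cast
      field_simp
    rw [h6]
    congr 2
    rw [Real.rpow_two]
    push_cast
    ring
  rw [setIntegral_congr_fun measurableSet_Ioi e, integral_const_mul]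
  change 2 * Psi a b = _
  rw [hmain]
  unfold val
  rw [hab, exp_quarter]
  have h7 : (Real.sqrt Real.pi : ℂ) = c * Real.sqrt 2 := by
    rw [← Complex.ofReal_mul, hc, ← Real.sqrt_mul (by positivity)]
    congr 2
    ring
  have h8 : (Real.sqrt 2 : ℂ) ^ 2 = 2 := by
    rw [← Complex.ofReal_pow, Real.sq_sqrt (by norm_num)]
    norm_num
  have h9 : (1 - Complex.I) ≠ 0 := by
    intro h
    have := congrArg Complex.re h
    simp at this
  have h10 : (c : ℂ) ≠ 0 := by exact_mod_cast hc0.ne'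
  rw [h7, ha]
  have h11 : (1 + Complex.I) * (1 - Complex.I) = 2 := by
    ring_nf
    rw [Complex.I_sq]
    norm_num
  field_simp
  linear_combination (-1 : ℂ) * h11

end Pool.Agent.T9h82.LS
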