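import Pool.Agent.T9h44.LS4.Ker
import Pool.Agent.T9h82.LS.Subord

/-!
# The kernel of the regularised wave: size, integrability
-/

set_option autoImplicit false

namespace Pool.Agent.T9h82.LS

open MeasureTheory Real Pool.Agent.T9h44.LS4
open Filter Topology Set

/-! ### The gamma integral with a complex rate -/

theorem int_pow_exp {a ε : ℝ} (ha : 0 < a) (hε : 0 < ε) :
    IntegrableOn (fun s : ℝ => s ^ (a - 1) * Real.exp (-(ε * s))) (Ioi 0) := by
  have h := integrableOn_rpow_mul_exp_neg_mul_rpow (s := a - 1) (p := 1) (b := ε) (by linarith)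
    (by norm_num) hε
  refine h.congr_fun ?_ measurableSet_Ioi
  intro s _
  simp only [Real.rpow_one]
  rw [neg_mul]

theorem norm_gam {a : ℝ} (r : ℂ) {s : ℝ} (hs : 0 < s) :
    ‖((s ^ (a - 1) : ℝ) : ℂ) * Complex.exp (-(r * s))‖ = s ^ (a - 1) * Real.exp (-(r.re * s)) := by
  rw [norm_mul, Complex.norm_real, Real.norm_of_nonneg (Real.rpow_nonneg hs.le _),
    Complex.norm_exp, Complex.neg_re, Complex.re_mul_ofReal]

theorem meas_gam (a : ℝ) (r : ℂ) :
    Measurable fun s : ℝ => ((s ^ (a - 1) : ℝ) : ℂ) * Complex.exp (-(r * s)) := by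
  fun_prop

theorem gamma_int (a : ℝ) (ha : 0 < a) (r : ℂ) (hr : 0 < r.re) :
    ∫ s in Ioi (0 : ℝ), ((s ^ (a - 1) : ℝ) : ℂ) * Complex.exp (-(r * s)) =
      (Real.Gamma a : ℂ) * r ^ (-(a : ℂ)) := by
  set U : Set ℂ := {z | 0 < z.re} with hU
  have hUo : IsOpen U := isOpen_lt continuous_const Complex.continuous_re
  have hUc : Convex ℝ U := by
    intro x hx y hy s t hs ht hst
    have hx' : 0 < x.re := hx
    have hy' : 0 < y.re := hy
    change 0 < (s • x + t • y).re
    simp only [Complex.add_re, Complex.real_smul, Complex.mul_re, Complex.ofReal_re,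
      Complex.ofReal_im, zero_mul, sub_zero]
    rcases eq_or_lt_of_le hs with h | h
    · have ht1 : t = 1 := by linarith
      subst ht1
      rw [← h]; linarith
    · have := mul_pos h hx'
      have := mul_nonneg ht hy'.le
      linarith
  have h1 : AnalyticOnNhd ℂ (fun z : ℂ => ∫ s in Ioi (0 : ℝ), ((s ^ (a - 1) : ℝ) : ℂ) *
      Complex.exp (-(z * s))) U := by
    refine DifferentiableOn.analyticOnNhd (fun z hz => ?_) hUo
    have hz0 : 0 < z.re := hz
    set ε := z.re / 2 with hε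
    have hε0 : 0 < ε := by positivity
    have hnhd : {w : ℂ | ε < w.re} ∈ 𝓝 z := by
      refine IsOpen.mem_nhds (isOpen_lt continuous_const Complex.continuous_re) ?_
      change ε < z.re
      linarith
    have hint : IntegrableOn (fun s : ℝ => s ^ (a + 1 - 1) * Real.exp (-(ε * s))) (Ioi 0) :=
      int_pow_exp (by linarith) hε0
    have key := hasDerivAt_integral_of_dominated_loc_of_deriv_le (𝕜 := ℂ)
      (μ := volume.restrict (Ioi (0 : ℝ)))
      (F := fun z s => ((s ^ (a - 1) : ℝ) : ℂ) * Complex.exp (-(z * s)))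
      (F' := fun z s => -(s : ℂ) * (((s ^ (a - 1) : ℝ) : ℂ) * Complex.exp (-(z * s)))) (x₀ := z)
      (bound := fun s : ℝ => s ^ (a + 1 - 1) * Real.exp (-(ε * s)))
      hnhd (Eventually.of_forall fun w => (meas_gam a w).aestronglyMeasurable)
      ?_ ?_ ?_ hint ?_
    · exact key.2.differentiableAt.differentiableWithinAt
    · refine Integrable.mono' (int_pow_exp ha hz0) (meas_gam a z).aestronglyMeasurable ?_
      filter_upwards [ae_restrict_mem measurableSet_Ioi] with s hs
      exact (norm_gam z hs).le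
    · exact (Measurable.mul (by fun_prop) (meas_gam a z)).aestronglyMeasurable
    · filter_upwards [ae_restrict_mem measurableSet_Ioi] with s hs w hw
      have hs0 : 0 < s := hs
      have hw' : ε < w.re := hw
      rw [norm_mul, norm_neg, Complex.norm_real, Real.norm_of_nonneg hs0.le, norm_gam w hs0,
        ← mul_assoc]
      have e1 : s * s ^ (a - 1) = s ^ (a + 1 - 1) := by
        rw [show a + 1 - 1 = 1 + (a - 1) by ring, Real.rpow_add hs0, Real.rpow_one]
      rw [e1]
      refine mul_le_mul_of_nonneg_left (Real.exp_le_exp.2 ?_) (Real.rpow_nonneg hs0.le _)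
      have := mul_le_mul_of_nonneg_right hw'.le hs0.le
      linarith
    · refine Eventually.of_forall fun s w _ => ?_
      have h1 : HasDerivAt (fun z : ℂ => -(z * (s : ℂ))) (-(s : ℂ)) w :=
        (hasDerivAt_mul_const (s : ℂ)).neg
      have h2 := (h1.cexp).const_mul (((s ^ (a - 1) : ℝ) : ℂ))
      refine h2.congr_deriv ?_
      ring
  have h2 : AnalyticOnNhd ℂ (fun z : ℂ => (Real.Gamma a : ℂ) * z ^ (-(a : ℂ))) U := by
    refine DifferentiableOn.analyticOnNhd (fun z hz => ?_) hUo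
    have hs : z ∈ Complex.slitPlane := Or.inl hz
    refine DifferentiableAt.differentiableWithinAt ?_
    exact ((differentiableAt_id).cpow_const hs).const_mul _
  refine h1.eqOn_of_preconnected_of_frequently_eq h2 hUc.isPreconnected
    (z₀ := 1) (by simp [hU]) (frequently_real fun x hx => ?_) hr
  have h3 := Real.integral_rpow_mul_exp_neg_mul_Ioi ha hx
  have e : ∀ s : ℝ, ((s ^ (a - 1) : ℝ) : ℂ) * Complex.exp (-((x : ℂ) * s)) =
      ((s ^ (a - 1) * Real.exp (-(x * s)) : ℝ) : ℂ) := by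
    intro s; push_cast; rfl
  simp_rw [e]
  rw [integral_complex_ofReal, h3]
  push_cast
  rw [Complex.ofReal_cpow (by positivity), mul_comm, Complex.cpow_neg]
  push_cast
  rw [one_div, ← Complex.ofReal_inv, ← Complex.ofReal_cpow (by positivity),
    Real.inv_rpow hx.le, Complex.ofReal_inv, Complex.ofReal_cpow hx.le]

/-! ### Size and integrability of the kernel -/

variable {n : ℕ}

/-- the rate -/
noncomputable def rate (y w : ℝ) (g z : Fin n → ℝ) : ℂ :=
  ((2 * π * y : ℝ) : ℂ) + ((π * (q g z - w) : ℝ) : ℂ) * Complex.I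

theorem Ker_eq {y : ℝ} (hy : 0 < y) (w : ℝ) (g z : Fin n → ℝ) :
    Ker n y w g z = (Real.Gamma (((n : ℝ) + 1) / 2) : ℂ) *
      rate y w g z ^ (-((((n : ℝ) + 1) / 2 : ℝ) : ℂ)) := by
  have hre : 0 < (rate y w g z).re := by
    unfold rate
    simp only [Complex.add_re, Complex.ofReal_re, Complex.re_ofReal_mul, Complex.I_re, mul_zero,
      add_zero]
    positivity
  rw [← gamma_int _ (by positivity) _ hre]
  unfold Ker os
  refine setIntegral_congr_fun measurableSet_Ioi fun s _ => ?_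
  rw [show ((n : ℝ) + 1) / 2 - 1 = ((n : ℝ) - 1) / 2 by ring]
  rw [Complex.ofReal_mul, mul_assoc, Complex.ofReal_exp, ← Complex.exp_add]
  congr 2
  unfold rate
  push_cast
  ring

/-- **C1** -/
theorem norm_Ker {y : ℝ} (hy : 0 < y) (w : ℝ) (g z : Fin n → ℝ) :
    ‖Ker n y w g z‖ = Real.Gamma (((n : ℝ) + 1) / 2) /
      ‖((2 * π * y : ℝ) : ℂ) + ((π * (q g z - w) : ℝ) : ℂ) * Complex.I‖ ^ (((n : ℝ) + 1) / 2) := by
  rw [Ker_eq hy, norm_mul, Complex.norm_real, Real.norm_of_nonneg (by positivity),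
    ← Complex.ofReal_neg, Complex.norm_cpow_real, Real.rpow_neg (norm_nonneg _)]
  rfl

theorem measurable_Ker {y : ℝ} (hy : 0 < y) (w : ℝ) (g : Fin n → ℝ) :
    Measurable (Ker n y w g) := by
  have h : Ker n y w g = fun z => (Real.Gamma (((n : ℝ) + 1) / 2) : ℂ) *
      rate y w g z ^ (-((((n : ℝ) + 1) / 2 : ℝ) : ℂ)) := funext fun z => Ker_eq hy w g z
  rw [h]
  have hq : Measurable fun z : Fin n → ℝ => q g z := by
    unfold q
    fun_prop
  unfold rate
  fun_prop

theorem rate_ge {y : ℝ} (hy : 0 < y) (w : ℝ) (g z : Fin n → ℝ) :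
    1 + q g z ≤ (1 + (1 + |w|) / (2 * y)) * ‖rate y w g z‖ := by
  have hπ : 1 ≤ π := by linarith [Real.pi_gt_three]
  have h1 : 2 * y ≤ ‖rate y w g z‖ := by
    have h := Complex.abs_re_le_norm (rate y w g z)
    have e : (rate y w g z).re = 2 * π * y := by
      unfold rate
      simp only [Complex.add_re, Complex.ofReal_re, Complex.re_ofReal_mul, Complex.I_re, mul_zero,
        add_zero]
    rw [e, abs_of_pos (by positivity)] at h
    nlinarith
  have h2 : |q g z - w| ≤ ‖rate y w g z‖ := by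
    have h := Complex.abs_im_le_norm (rate y w g z)
    have e : (rate y w g z).im = π * (q g z - w) := by
      unfold rate
      simp only [Complex.add_im, Complex.ofReal_im, Complex.im_ofReal_mul, Complex.I_im, mul_one,
        zero_add]
    rw [e, abs_mul, abs_of_pos (by positivity)] at h
    have := abs_nonneg (q g z - w)
    nlinarith
  have h3 : q g z ≤ |w| + |q g z - w| := by
    have := le_abs_self w
    have := le_abs_self (q g z - w)
    linarith
  have h4 : (1 + |w|) ≤ (1 + |w|) / (2 * y) * ‖rate y w g z‖ := by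
    rw [div_mul_eq_mul_div, le_div_iff₀ (by positivity)]
    exact mul_le_mul_of_nonneg_left h1 (by positivity)
  linarith

/-- **C2** -/
theorem integrable_Ker (hn : 1 ≤ n) {y : ℝ} (hy : 0 < y) (w : ℝ) {g : Fin n → ℝ}
    (hg : ∀ i, 0 < g i) : Integrable (Ker n y w g) := by
  have : Nonempty (Fin n) := ⟨⟨0, hn⟩⟩
  obtain ⟨i0, -, hi0⟩ := Finset.exists_min_image Finset.univ g ⟨⟨0, hn⟩, Finset.mem_univ _⟩
  set m := g i0 with hm
  have hm0 : 0 < m := hg i0
  have hq : ∀ z : Fin n → ℝ, m * ‖z‖ ^ 2 ≤ q g z := by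
    intro z
    obtain ⟨i, hi⟩ : ∃ i, ‖z‖ = ‖z i‖ := by
      obtain ⟨i, -, hi⟩ := Finset.exists_max_image Finset.univ (fun i => ‖z i‖)
        ⟨⟨0, hn⟩, Finset.mem_univ _⟩
      refine ⟨i, le_antisymm ?_ (norm_le_pi_norm z i)⟩
      exact (pi_norm_le_iff_of_nonneg (norm_nonneg _)).2 fun j => hi j (Finset.mem_univ j)
    rw [hi, Real.norm_eq_abs, sq_abs]
    unfold q
    calc m * z i ^ 2 ≤ g i * z i ^ 2 :=
          mul_le_mul_of_nonneg_right (hi0 i (Finset.mem_univ i)) (sq_nonneg _)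
      _ ≤ ∑ j, g j * z j ^ 2 :=
          Finset.single_le_sum (f := fun j => g j * z j ^ 2)
            (fun j _ => mul_nonneg (hg j).le (sq_nonneg _)) (Finset.mem_univ i)
  set A := 2 * (1 + 1 / m) * (1 + (1 + |w|) / (2 * y)) with hA
  have hA0 : 0 < A := by positivity
  have hbd : ∀ z : Fin n → ℝ, (1 + ‖z‖) ^ 2 ≤ A * ‖rate y w g z‖ := by
    intro z
    have h1 := rate_ge hy w g z
    have h2 : (1 + ‖z‖) ^ 2 ≤ 2 * (1 + 1 / m) * (1 + q g z) := by
      have h3 := hq z
      have h4 : ‖z‖ ^ 2 ≤ 1 / m * q g z := by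
        rw [one_div, inv_mul_eq_div, le_div_iff₀ hm0]
        linarith
      have h5 : 0 ≤ 1 / m := by positivity
      have h6 : 0 ≤ q g z := (by positivity : (0 : ℝ) ≤ m * ‖z‖ ^ 2).trans h3
      nlinarith [sq_nonneg (1 - ‖z‖)]
    calc (1 + ‖z‖) ^ 2 ≤ 2 * (1 + 1 / m) * (1 + q g z) := h2
      _ ≤ 2 * (1 + 1 / m) * ((1 + (1 + |w|) / (2 * y)) * ‖rate y w g z‖) := by gcongr
      _ = A * ‖rate y w g z‖ := by rw [hA]; ring
  have hint : Integrable (fun z : Fin n → ℝ => Real.Gamma (((n : ℝ) + 1) / 2) *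
      A ^ (((n : ℝ) + 1) / 2) * (1 + ‖z‖) ^ (-((n : ℝ) + 1))) := by
    refine (integrable_one_add_norm (μ := (volume : Measure (Fin n → ℝ))) ?_).const_mul _
    rw [Module.finrank_fin_fun]
    linarith
  refine Integrable.mono' hint (measurable_Ker hy w g).aestronglyMeasurable ?_
  refine Eventually.of_forall fun z => ?_
  have h1 := hbd z
  have hr0 : 0 < ‖rate y w g z‖ := by
    have : 0 < (1 + ‖z‖) ^ 2 := by positivity
    by_contra hcon
    have h0 : ‖rate y w g z‖ = 0 := le_antisymm (not_lt.1 hcon) (norm_nonneg _)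
    rw [h0, mul_zero] at h1
    linarith
  rw [norm_Ker hy]
  change _ / ‖rate y w g z‖ ^ (((n : ℝ) + 1) / 2) ≤ _
  rw [mul_assoc, div_eq_mul_inv]
  refine mul_le_mul_of_nonneg_left ?_ (by positivity)
  have h2 : (1 + ‖z‖) ^ ((n : ℝ) + 1) ≤
      A ^ (((n : ℝ) + 1) / 2) * ‖rate y w g z‖ ^ (((n : ℝ) + 1) / 2) := by
    rw [← Real.mul_rpow hA0.le hr0.le]
    have h3 : (1 + ‖z‖) ^ ((n : ℝ) + 1) = ((1 + ‖z‖) ^ 2) ^ (((n : ℝ) + 1) / 2) := by
      rw [← Real.rpow_natCast, ← Real.rpow_mul (by positivity)]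
      congr 1
      push_cast
      ring
    rw [h3]
    exact Real.rpow_le_rpow (by positivity) h1 (by positivity)
  rw [Real.rpow_neg (by positivity), inv_le_comm₀ (by positivity) (by positivity), mul_inv,
    inv_inv, inv_mul_le_iff₀ (by positivity)]
  exact h2

end Pool.Agent.T9h82.LS
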