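import Pool.Agent.T9h44.LS5.Stm3
import Pool.Agent.T9h44.LS4.AS2
import Pool.Agent.T9h44.LS4.PL
import Pool.Agent.T9h82.LS.KBd

/-!
# The `L^1` norm of the kernel of the regularised wave (helper82)
-/

set_option autoImplicit false

namespace Pool.Agent.T9h82.LS

open MeasureTheory Real Pool.Agent.N303.LS Pool.Agent.T9h44.LS4 Pool.Agent.T9h44.LS5
open Filter Topology Set
open scoped ENNReal

/-- the weight in one dimension -/
noncomputable def hh (r : ℝ) (u : ℝ) : ℝ := if |u| ≤ 3 then |u| ^ r else 0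

theorem hh_nonneg (r u : ℝ) : 0 ≤ hh r u := by
  unfold hh
  split_ifs
  · exact Real.rpow_nonneg (abs_nonneg _) _
  · exact le_rfl

theorem meas_hh (r : ℝ) : Measurable (hh r) := by
  unfold hh
  refine Measurable.ite ?_ (by fun_prop) measurable_const
  exact measurableSet_le (by fun_prop) measurable_const

theorem int_hh {r : ℝ} (hr : -1 < r) : Integrable (hh r) := by
  have h : hh r = fun u : ℝ => (fun y : ℝ => if y ≤ 3 then y ^ r else 0) ‖u‖ := by
    funext u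
    simp only [hh, Real.norm_eq_abs]
  rw [h, integrable_fun_norm_addHaar (volume : Measure ℝ)
    (f := fun y : ℝ => if y ≤ 3 then y ^ r else 0)]
  simp only [Module.finrank_self, Nat.sub_self, pow_zero, one_smul]
  have h1 : IntervalIntegrable (fun x : ℝ => x ^ r) volume 0 3 :=
    intervalIntegral.intervalIntegrable_rpow' hr
  rw [intervalIntegrable_iff_integrableOn_Ioc_of_le (by norm_num)] at h1
  have h2 : Integrable (indicator (Ioc (0 : ℝ) 3) fun x => x ^ r) :=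
    (integrable_indicator_iff measurableSet_Ioc).2 h1
  refine (h2.integrableOn (s := Ioi 0)).congr_fun ?_ measurableSet_Ioi
  intro x hx
  have hx0 : 0 < x := hx
  by_cases h3 : x ≤ 3
  · simp [indicator, h3, hx0]
  · simp [indicator, h3]

/-- the near part of the kernel -/
noncomputable def FF (r y w ρ : ℝ) : ℝ := if ρ ≤ 3 then (y + |ρ ^ 2 - w|) ^ r else 0

theorem FF_nonneg {r y w ρ : ℝ} (hy : 0 < y) : 0 ≤ FF r y w ρ := by
  unfold FF
  split_ifs
  · exact Real.rpow_nonneg (by positivity) _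
  · exact le_rfl

theorem meas_FF (r y w : ℝ) : Measurable (FF r y w) := by
  unfold FF
  refine Measurable.ite ?_ (by fun_prop) measurable_const
  exact measurableSet_le (by fun_prop) measurable_const

/-- the one-dimensional bound -/
theorem FF_le (m : ℕ) {ε y a ρ : ℝ} (hε0 : 0 < ε) (hε1 : ε < 1) (hy : 0 < y) (ha : 1 / 2 ≤ a)
    (ha2 : a ≤ 2) (hρ : 0 < ρ) (hne : ρ ≠ a) :
    ρ ^ m * FF (-(1 - ε)) y (a ^ 2) ρ ≤ 2 * 3 ^ m * hh (-(1 - ε)) (ρ - a) := by
  unfold FF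
  split_ifs with h3
  · have habs : |ρ - a| ≤ 3 := by
      rw [abs_le]
      constructor <;> linarith
    have hpos : 0 < |ρ - a| := abs_pos.2 (sub_ne_zero.2 hne)
    have e : |ρ ^ 2 - a ^ 2| = |ρ - a| * (ρ + a) := by
      rw [show ρ ^ 2 - a ^ 2 = (ρ - a) * (ρ + a) by ring, abs_mul, abs_of_pos (by linarith : 0 < ρ + a)]
    have h1 : (y + |ρ ^ 2 - a ^ 2|) ^ (-(1 - ε)) ≤ (|ρ - a| * (1 / 2)) ^ (-(1 - ε)) := by
      refine Real.rpow_le_rpow_of_nonpos (by positivity) ?_ (by linarith)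
      rw [e]
      have : |ρ - a| * (1 / 2) ≤ |ρ - a| * (ρ + a) := by
        refine mul_le_mul_of_nonneg_left ?_ hpos.le
        linarith
      linarith
    have h2 : (|ρ - a| * (1 / 2)) ^ (-(1 - ε)) ≤ 2 * |ρ - a| ^ (-(1 - ε)) := by
      rw [Real.mul_rpow hpos.le (by norm_num), mul_comm]
      refine mul_le_mul_of_nonneg_right ?_ (Real.rpow_nonneg hpos.le _)
      rw [one_div, Real.inv_rpow (by norm_num), ← Real.rpow_neg (by norm_num), neg_neg]
      calc (2 : ℝ) ^ (1 - ε) ≤ 2 ^ (1 : ℝ) := Real.rpow_le_rpow_of_exponent_le (by norm_num)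
            (by linarith)
        _ = 2 := Real.rpow_one 2
    have h4 : ρ ^ m ≤ 3 ^ m := pow_le_pow_left₀ hρ.le h3 m
    unfold hh
    rw [if_pos habs]
    calc ρ ^ m * (y + |ρ ^ 2 - a ^ 2|) ^ (-(1 - ε))
        ≤ 3 ^ m * (2 * |ρ - a| ^ (-(1 - ε))) :=
          mul_le_mul h4 (h1.trans h2) (Real.rpow_nonneg (by positivity) _) (by positivity)
      _ = _ := by ring
  · rw [mul_zero]
    have := hh_nonneg (-(1 - ε)) (ρ - a)
    positivity

/-- the near part is bounded -/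
theorem near {n : ℕ} (hn : 1 ≤ n) {ε : ℝ} (hε0 : 0 < ε) (hε1 : ε < 1) :
    ∃ C : ℝ, 0 < C ∧ ∀ y w : ℝ, 0 < y → w ∈ Icc (1 / 4 : ℝ) 4 →
      ∫⁻ x : E n, ENNReal.ofReal (FF (-(1 - ε)) y w ‖x‖) ≤ ENNReal.ofReal C := by
  have : Nonempty (Fin n) := ⟨⟨0, hn⟩⟩
  have hnt : Nontrivial (E n) := by
    have : (0 : ℕ) < Module.finrank ℝ (E n) := by
      rw [finrank_euclideanSpace_fin]; omega
    exact Module.nontrivial_of_finrank_pos this
  set H : ℝ := ∫ u : ℝ, hh (-(1 - ε)) u with hH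
  have hHi : Integrable (hh (-(1 - ε))) := int_hh (by linarith)
  have hH0 : 0 ≤ H := integral_nonneg fun u => hh_nonneg _ _
  refine ⟨(n : ℝ) * (volume : Measure (E n)).real (Metric.ball 0 1) * (2 * 3 ^ (n - 1) * H) + 1,
    by positivity, ?_⟩
  intro y w hy hw
  set a := Real.sqrt w with ha
  have haw : a ^ 2 = w := Real.sq_sqrt (by linarith [hw.1])
  have ha0 : 0 ≤ a := Real.sqrt_nonneg w
  have ha1 : 1 / 2 ≤ a := by
    by_contra h
    have h' : a < 1 / 2 := not_le.1 h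
    nlinarith [hw.1]
  have ha2 : a ≤ 2 := by
    by_contra h
    have h' : 2 < a := not_le.1 h
    nlinarith [hw.2]
  have hsh : Integrable fun ρ : ℝ => 2 * 3 ^ (n - 1) * hh (-(1 - ε)) (ρ - a) :=
    (hHi.comp_sub_right a).const_mul _
  have hae : ∀ᵐ ρ : ℝ ∂(volume.restrict (Ioi 0)),
      ρ ^ (n - 1) * FF (-(1 - ε)) y w ρ ≤ 2 * 3 ^ (n - 1) * hh (-(1 - ε)) (ρ - a) := by
    have h1 : ∀ᵐ ρ : ℝ ∂(volume.restrict (Ioi (0 : ℝ))), ρ ≠ a :=
      ae_restrict_of_ae (by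
        rw [ae_iff]
        simp)
    filter_upwards [h1, ae_restrict_mem measurableSet_Ioi] with ρ h2 h3
    rw [← haw]
    exact FF_le (n - 1) hε0 hε1 hy ha1 ha2 h3 h2
  have hmeas : Measurable fun ρ : ℝ => ρ ^ (n - 1) * FF (-(1 - ε)) y w ρ :=
    (measurable_id.pow_const _).mul (meas_FF _ _ _)
  have hGi : IntegrableOn (fun ρ : ℝ => ρ ^ (n - 1) * FF (-(1 - ε)) y w ρ) (Ioi 0) := by
    refine Integrable.mono' hsh.integrableOn hmeas.aestronglyMeasurable ?_
    filter_upwards [hae, ae_restrict_mem measurableSet_Ioi] with ρ h2 h3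
    have h3' : 0 < ρ := h3
    rw [Real.norm_of_nonneg (mul_nonneg (pow_nonneg h3'.le _) (FF_nonneg hy))]
    exact h2
  have hFi : Integrable fun x : E n => FF (-(1 - ε)) y w ‖x‖ := by
    rw [integrable_fun_norm_addHaar (volume : Measure (E n)) (f := FF (-(1 - ε)) y w),
      finrank_euclideanSpace_fin]
    exact hGi
  rw [← ofReal_integral_eq_lintegral_ofReal hFi (Eventually.of_forall fun x => FF_nonneg hy)]
  refine ENNReal.ofReal_le_ofReal ?_
  rw [integral_fun_norm_addHaar (volume : Measure (E n)) (FF (-(1 - ε)) y w),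
    finrank_euclideanSpace_fin, nsmul_eq_mul, smul_eq_mul, ← mul_assoc]
  simp only [smul_eq_mul]
  have h5 : ∫ ρ in Ioi (0 : ℝ), ρ ^ (n - 1) * FF (-(1 - ε)) y w ρ ≤ 2 * 3 ^ (n - 1) * H := by
    calc ∫ ρ in Ioi (0 : ℝ), ρ ^ (n - 1) * FF (-(1 - ε)) y w ρ
        ≤ ∫ ρ in Ioi (0 : ℝ), 2 * 3 ^ (n - 1) * hh (-(1 - ε)) (ρ - a) :=
          setIntegral_mono_ae_restrict hGi hsh.integrableOn hae
      _ ≤ ∫ ρ : ℝ, 2 * 3 ^ (n - 1) * hh (-(1 - ε)) (ρ - a) := by
          refine setIntegral_le_integral hsh (Eventually.of_forall fun ρ => ?_)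
          have := hh_nonneg (-(1 - ε)) (ρ - a)
          positivity
      _ = 2 * 3 ^ (n - 1) * H := by
          rw [integral_const_mul, integral_sub_right_eq_self (hh (-(1 - ε))) a]
  have h6 : (0 : ℝ) ≤ (n : ℝ) * (volume : Measure (E n)).real (Metric.ball 0 1) := by positivity
  have := mul_le_mul_of_nonneg_left h5 h6
  linarith

/-- the size of the rate -/
theorem rate_norm_ge {n : ℕ} {y : ℝ} (hy : 0 < y) (w : ℝ) (g z : Fin n → ℝ) :
    y + |q g z - w| ≤
      ‖((2 * π * y : ℝ) : ℂ) + ((π * (q g z - w) : ℝ) : ℂ) * Complex.I‖ := by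
  set b := |q g z - w| with hb
  have hb0 : 0 ≤ b := abs_nonneg _
  have hn : ‖((2 * π * y : ℝ) : ℂ) + ((π * (q g z - w) : ℝ) : ℂ) * Complex.I‖ =
      Real.sqrt ((2 * π * y) ^ 2 + (π * (q g z - w)) ^ 2) := by
    rw [Complex.norm_add_mul_I]
  rw [hn]
  refine Real.le_sqrt_of_sq_le ?_
  have hπ : 2 ≤ π := by linarith [Real.pi_gt_three]
  have e : (π * (q g z - w)) ^ 2 = π ^ 2 * b ^ 2 := by
    rw [hb, sq_abs]; ring
  rw [e]
  have hπ2 : 4 ≤ π ^ 2 := by nlinarith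
  nlinarith [sq_nonneg (y - b), mul_pos hy hy, sq_nonneg b,
    mul_le_mul_of_nonneg_right hπ2 (sq_nonneg y), mul_le_mul_of_nonneg_right hπ2 (sq_nonneg b)]

/-- the bound in the norm -/
noncomputable def BB (n : ℕ) (y w r : ℝ) : ℝ := (y + |r - w|) ^ (-(((n : ℝ) + 1) / 2))

theorem Ker_le {n : ℕ} {y : ℝ} (hy : 0 < y) (w : ℝ) (g z : Fin n → ℝ) :
    ‖Ker n y w g z‖ₑ ≤ ENNReal.ofReal (Real.Gamma (((n : ℝ) + 1) / 2)) *
      ENNReal.ofReal (BB n y w (q g z)) := by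
  have hG : 0 < Real.Gamma (((n : ℝ) + 1) / 2) := Real.Gamma_pos_of_pos (by positivity)
  rw [← ofReal_norm, ← ENNReal.ofReal_mul hG.le, norm_Ker hy]
  refine ENNReal.ofReal_le_ofReal ?_
  unfold BB
  rw [div_eq_mul_inv, Real.rpow_neg (by positivity)]
  refine mul_le_mul_of_nonneg_left ?_ hG.le
  refine inv_anti₀ (by positivity) ?_
  exact Real.rpow_le_rpow (by positivity) (rate_norm_ge hy w g z) (by positivity)

/-- reduction to the flat quadratic form -/
theorem red_one {n : ℕ} {y : ℝ} (w : ℝ) {g : Fin n → ℝ} (hg : g ∈ box n) :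
    ∫⁻ z : Fin n → ℝ, ENNReal.ofReal (BB n y w (q g z)) ≤
      ∫⁻ x : E n, ENNReal.ofReal (BB n y w (‖x‖ ^ 2)) := by
  have hg1 : ∀ i, 1 ≤ Real.sqrt (g i) := fun i => Real.one_le_sqrt.2 (hg i).1
  have hg0 : ∀ i, 0 < Real.sqrt (g i) := fun i => lt_of_lt_of_le one_pos (hg1 i)
  have hm : Measurable fun x : Fin n → ℝ => ENNReal.ofReal (BB n y w (∑ i, x i ^ 2)) := by
    unfold BB
    fun_prop
  have h1 := lint_diag (fun i => Real.sqrt (g i)) hg0
    (fun x => ENNReal.ofReal (BB n y w (∑ i, x i ^ 2))) hm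
  have e1 : ∀ z : Fin n → ℝ, ∑ i, (Real.sqrt (g i) * z i) ^ 2 = q g z := by
    intro z
    unfold q
    refine Finset.sum_congr rfl fun i _ => ?_
    rw [mul_pow, Real.sq_sqrt (by linarith [(hg i).1])]
  simp only [e1] at h1
  have e2 : ∫⁻ x : Fin n → ℝ, ENNReal.ofReal (BB n y w (∑ i, x i ^ 2)) =
      ∫⁻ x : E n, ENNReal.ofReal (BB n y w (‖x‖ ^ 2)) := by
    rw [← lint_E']
    refine lintegral_congr fun x => ?_
    rw [EuclideanSpace.norm_sq_eq]
    simp
  rw [← e2, ← h1]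
  refine le_mul_of_one_le_left zero_le ?_
  rw [← ENNReal.ofReal_one]
  refine ENNReal.ofReal_le_ofReal ?_
  calc (1 : ℝ) = ∏ i : Fin n, (1 : ℝ) := by simp
    _ ≤ _ := Finset.prod_le_prod (fun _ _ => by norm_num) fun i _ => hg1 i

/-- far from the cone -/
theorem BB_far (n : ℕ) {y w ρ : ℝ} (hρ0 : 0 ≤ ρ)
    (h : (1 + ρ) ^ 2 / 32 ≤ y + |ρ ^ 2 - w|) :
    BB n y w (ρ ^ 2) ≤ (32 : ℝ) ^ (((n : ℝ) + 1) / 2) * (1 + ρ) ^ (-((n : ℝ) + 1)) := by
  unfold BB
  have h1 : (y + |ρ ^ 2 - w|) ^ (-(((n : ℝ) + 1) / 2)) ≤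
      ((1 + ρ) ^ 2 / 32) ^ (-(((n : ℝ) + 1) / 2)) :=
    Real.rpow_le_rpow_of_nonpos (by positivity) h (by
      have : (0 : ℝ) ≤ n := Nat.cast_nonneg n
      linarith)
  refine h1.trans (le_of_eq ?_)
  rw [div_eq_mul_inv, Real.mul_rpow (by positivity) (by norm_num), mul_comm]
  congr 1
  · rw [Real.inv_rpow (by norm_num), ← Real.rpow_neg (by norm_num), neg_neg]
  · rw [← Real.rpow_natCast, ← Real.rpow_mul (by positivity)]
    congr 1
    push_cast
    ring

/-- pointwise splitting -/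
theorem BB_le {n : ℕ} (hn : 1 ≤ n) {ε y w ρ : ℝ} (hε0 : 0 < ε) (hy : 0 < y)
    (hw4 : w ≤ 4) (hρ0 : 0 ≤ ρ) :
    BB n y w (ρ ^ 2) ≤ (32 : ℝ) ^ (((n : ℝ) + 1) / 2) * (1 + ρ) ^ (-((n : ℝ) + 1)) +
      y ^ (-(((n : ℝ) - 1) / 2 + ε)) * FF (-(1 - ε)) y w ρ := by
  have hn1 : (1 : ℝ) ≤ n := by exact_mod_cast hn
  by_cases h3 : ρ ≤ 3
  · have h1 : BB n y w (ρ ^ 2) ≤ y ^ (-(((n : ℝ) - 1) / 2 + ε)) * FF (-(1 - ε)) y w ρ := by
      unfold BB FF
      rw [if_pos h3]
      have hD : 0 < y + |ρ ^ 2 - w| := by positivity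
      rw [show -(((n : ℝ) + 1) / 2) = -(((n : ℝ) - 1) / 2 + ε) + -(1 - ε) by ring,
        Real.rpow_add hD]
      refine mul_le_mul_of_nonneg_right ?_ (Real.rpow_nonneg hD.le _)
      refine Real.rpow_le_rpow_of_nonpos hy ?_ (by linarith)
      linarith [abs_nonneg (ρ ^ 2 - w)]
    have h2 : 0 ≤ (32 : ℝ) ^ (((n : ℝ) + 1) / 2) * (1 + ρ) ^ (-((n : ℝ) + 1)) := by positivity
    linarith
  · have h3' : 3 < ρ := not_le.1 h3
    have h1 := BB_far n (y := y) (w := w) hρ0 (by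
      have := le_abs_self (ρ ^ 2 - w)
      nlinarith)
    have h2 : 0 ≤ y ^ (-(((n : ℝ) - 1) / 2 + ε)) * FF (-(1 - ε)) y w ρ :=
      mul_nonneg (Real.rpow_nonneg hy.le _) (FF_nonneg hy)
    linarith

/-- **H1** -/
theorem kl1 {n : ℕ} (hn : 1 ≤ n) : S_KL1 n := by
  have : Nonempty (Fin n) := ⟨⟨0, hn⟩⟩
  have hn1 : (1 : ℝ) ≤ n := by exact_mod_cast hn
  intro ε hε
  set ε' := min ε (1 / 2) with hε'
  have h0 : 0 < ε' := lt_min hε (by norm_num)
  have h1 : ε' < 1 := lt_of_le_of_lt (min_le_right _ _) (by norm_num)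
  obtain ⟨C1, hC1, hN⟩ := near hn h0 h1
  set G := Real.Gamma (((n : ℝ) + 1) / 2) with hG
  have hG0 : 0 < G := Real.Gamma_pos_of_pos (by positivity)
  set J : ℝ := ∫ x : E n, (1 + ‖x‖) ^ (-((n : ℝ) + 1)) with hJ
  have hJi : Integrable fun x : E n => (1 + ‖x‖) ^ (-((n : ℝ) + 1)) := by
    refine integrable_one_add_norm ?_
    rw [finrank_euclideanSpace_fin]
    linarith
  have hJ0 : 0 ≤ J := integral_nonneg fun x => by positivity
  set c := (32 : ℝ) ^ (((n : ℝ) + 1) / 2) with hc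
  have hc0 : 0 < c := by positivity
  refine ⟨G * (c * J + C1), by positivity, ?_⟩
  intro g hg y t hy hy1 ht
  set w := t ^ 2 - y ^ 2 / t ^ 2 with hw
  have ht1 : 1 ≤ t := ht.1
  have ht2 : t ≤ 2 := ht.2
  have hdiv : y ^ 2 / t ^ 2 ≤ y ^ 2 := div_le_self (sq_nonneg _) (by nlinarith)
  have hdiv0 : 0 ≤ y ^ 2 / t ^ 2 := by positivity
  have hw4 : w ≤ 4 := by rw [hw]; nlinarith
  have hw1 : 1 - y ^ 2 ≤ w := by rw [hw]; nlinarith
  have hfar : ∫⁻ x : E n, ENNReal.ofReal (c * (1 + ‖x‖) ^ (-((n : ℝ) + 1))) =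
      ENNReal.ofReal (c * J) := by
    rw [← ofReal_integral_eq_lintegral_ofReal (hJi.const_mul c)
      (Eventually.of_forall fun x => by positivity), integral_const_mul]
  have hy1' : 1 ≤ y ^ (-(((n : ℝ) - 1) / 2 + ε)) :=
    Real.one_le_rpow_of_pos_of_le_one_of_nonpos hy hy1 (by linarith)
  have hyε : y ^ (-(((n : ℝ) - 1) / 2 + ε')) ≤ y ^ (-(((n : ℝ) - 1) / 2 + ε)) :=
    Real.rpow_le_rpow_of_exponent_ge hy hy1 (by linarith [min_le_left ε (1 / 2)])
  have key : ∫⁻ x : E n, ENNReal.ofReal (BB n y w (‖x‖ ^ 2)) ≤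
      ENNReal.ofReal ((c * J + C1) * y ^ (-(((n : ℝ) - 1) / 2 + ε))) := by
    by_cases hw2 : 1 / 4 ≤ w
    · calc ∫⁻ x : E n, ENNReal.ofReal (BB n y w (‖x‖ ^ 2))
          ≤ ∫⁻ x : E n, (ENNReal.ofReal (c * (1 + ‖x‖) ^ (-((n : ℝ) + 1))) +
            ENNReal.ofReal (y ^ (-(((n : ℝ) - 1) / 2 + ε))) *
              ENNReal.ofReal (FF (-(1 - ε')) y w ‖x‖)) := by
            refine lintegral_mono fun x => ?_
            rw [← ENNReal.ofReal_mul (by positivity), ← ENNReal.ofReal_add (by positivity)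
              (mul_nonneg (by positivity) (FF_nonneg hy))]
            refine ENNReal.ofReal_le_ofReal ?_
            have h5 := BB_le hn h0 hy hw4 (norm_nonneg x)
            have h6 := mul_le_mul_of_nonneg_right hyε (FF_nonneg (r := -(1 - ε')) (w := w)
              (ρ := ‖x‖) hy)
            linarith
        _ = ENNReal.ofReal (c * J) + ENNReal.ofReal (y ^ (-(((n : ℝ) - 1) / 2 + ε))) *
              ∫⁻ x : E n, ENNReal.ofReal (FF (-(1 - ε')) y w ‖x‖) := by
            rw [lintegral_add_left (by fun_prop), hfar, lintegral_const_mul]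
            exact ((meas_FF _ _ _).comp measurable_norm).ennreal_ofReal
        _ ≤ ENNReal.ofReal (c * J) + ENNReal.ofReal (y ^ (-(((n : ℝ) - 1) / 2 + ε))) *
              ENNReal.ofReal C1 := by
            gcongr
            exact hN y w hy ⟨hw2, hw4⟩
        _ = ENNReal.ofReal (c * J + y ^ (-(((n : ℝ) - 1) / 2 + ε)) * C1) := by
            rw [← ENNReal.ofReal_mul (by positivity), ← ENNReal.ofReal_add (by positivity)
              (by positivity)]
        _ ≤ _ := by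
            refine ENNReal.ofReal_le_ofReal ?_
            have : c * J ≤ c * J * y ^ (-(((n : ℝ) - 1) / 2 + ε)) :=
              le_mul_of_one_le_right (by positivity) hy1'
            linarith
    · have hy2 : 1 / 2 ≤ y := by
        by_contra h
        have h' : y < 1 / 2 := not_le.1 h
        nlinarith
      calc ∫⁻ x : E n, ENNReal.ofReal (BB n y w (‖x‖ ^ 2))
          ≤ ∫⁻ x : E n, ENNReal.ofReal (c * (1 + ‖x‖) ^ (-((n : ℝ) + 1))) := by
            refine lintegral_mono fun x => ENNReal.ofReal_le_ofReal ?_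
            refine BB_far n (norm_nonneg x) ?_
            have hx := norm_nonneg x
            have h7 := abs_nonneg (‖x‖ ^ 2 - w)
            by_cases h3 : ‖x‖ ≤ 3
            · nlinarith
            · have h3' : 3 < ‖x‖ := not_le.1 h3
              have := le_abs_self (‖x‖ ^ 2 - w)
              nlinarith
        _ = ENNReal.ofReal (c * J) := hfar
        _ ≤ _ := by
            refine ENNReal.ofReal_le_ofReal ?_
            have h8 : c * J ≤ c * J * y ^ (-(((n : ℝ) - 1) / 2 + ε)) :=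
              le_mul_of_one_le_right (by positivity) hy1'
            have h9 : 0 ≤ C1 * y ^ (-(((n : ℝ) - 1) / 2 + ε)) := by positivity
            linarith
  calc ∫⁻ z : Fin n → ℝ, ‖Ker n y w g z‖ₑ
      ≤ ∫⁻ z : Fin n → ℝ, ENNReal.ofReal G * ENNReal.ofReal (BB n y w (q g z)) :=
        lintegral_mono fun z => Ker_le hy w g z
    _ = ENNReal.ofReal G * ∫⁻ z : Fin n → ℝ, ENNReal.ofReal (BB n y w (q g z)) :=
        lintegral_const_mul' _ _ ENNReal.ofReal_ne_top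
    _ ≤ ENNReal.ofReal G * ENNReal.ofReal ((c * J + C1) * y ^ (-(((n : ℝ) - 1) / 2 + ε))) := by
        gcongr
        exact (red_one w hg).trans key
    _ = ENNReal.ofReal (G * (c * J + C1) * y ^ (-(((n : ℝ) - 1) / 2 + ε))) := by
        rw [← ENNReal.ofReal_mul hG0.le, mul_assoc]

end Pool.Agent.T9h82.LS
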