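import Pool.Agent.T9h82.LS.KBd

/-!
# The Fourier transform of the kernel of the regularised wave
-/

set_option autoImplicit false

namespace Pool.Agent.T9h82.LS

open MeasureTheory Real Pool.Agent.T9h44.LS4
open Filter Topology Set

variable {n : ℕ}

/-! ### Complex powers -/

theorem mul_cpow_pos {a : ℝ} (ha : 0 < a) {z : ℂ} (hz : z ≠ 0) (c : ℂ) :
    ((a : ℂ) * z) ^ c = (a : ℂ) ^ c * z ^ c := by
  have ha' : (a : ℂ) ≠ 0 := Complex.ofReal_ne_zero.2 ha.ne'
  rw [Complex.cpow_def_of_ne_zero (mul_ne_zero ha' hz), Complex.cpow_def_of_ne_zero ha',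
    Complex.cpow_def_of_ne_zero hz, Complex.log_ofReal_mul ha hz, ← Complex.exp_add,
    Complex.ofReal_log ha.le]
  congr 1
  ring

/-- `d + i s` -/
noncomputable def bet (d s : ℝ) : ℂ := (d : ℂ) + (s : ℂ) * Complex.I

theorem bet_re (d s : ℝ) : (bet d s).re = d := by
  unfold bet
  simp

theorem bet_im (d s : ℝ) : (bet d s).im = s := by
  unfold bet
  simp

theorem bet_ne {d s : ℝ} (hs : 0 < s) : bet d s ≠ 0 := by
  intro h
  have := bet_im d s
  rw [h, Complex.zero_im] at this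
  linarith

theorem norm_bet_inv_le {d s : ℝ} (hs : 0 < s) : ‖(bet d s)⁻¹‖ ≤ s⁻¹ := by
  rw [norm_inv]
  refine inv_anti₀ hs ?_
  have h := Complex.abs_im_le_norm (bet d s)
  rw [bet_im, abs_of_pos hs] at h
  exact h

theorem re_bet_inv_nonneg {d s : ℝ} (hd : 0 ≤ d) : 0 ≤ ((bet d s)⁻¹).re := by
  rw [Complex.inv_re, bet_re]
  exact div_nonneg hd (Complex.normSq_nonneg _)

/-- the character -/
noncomputable def ch (ξ z : Fin n → ℝ) : ℂ :=
  Complex.exp (((-(2 * π * ∑ i, z i * ξ i) : ℝ) : ℂ) * Complex.I)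

theorem norm_ch (ξ z : Fin n → ℝ) : ‖ch ξ z‖ = 1 := Complex.norm_exp_ofReal_mul_I _

theorem norm_os (l v : ℝ) : ‖os l v‖ = 1 := Complex.norm_exp_ofReal_mul_I _

/-- one factor of the Gaussian integral -/
theorem gauss_one {d s a : ℝ} (hd : 0 < d) (hs : 0 < s) (ha : 0 < a) (x : ℝ) :
    ∫ z : ℝ, Complex.exp (Complex.I * (((-(2 * π * x) : ℝ) : ℂ)) * z) *
        Complex.exp (-((π * a : ℝ) * bet d s) * z ^ 2) =
      ((a ^ (-(1 / 2) : ℝ) : ℝ) : ℂ) * (bet d s)⁻¹ ^ (1 / 2 : ℂ) *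
        Complex.exp (-((π * (x ^ 2 / a) : ℝ) * (bet d s)⁻¹)) := by
  have hb : 0 < (((π * a : ℝ) : ℂ) * bet d s).re := by
    rw [Complex.re_ofReal_mul, bet_re]
    positivity
  rw [fourierIntegral_gaussian hb]
  have hne := bet_ne (d := d) hs
  have hπ : (π : ℂ) ≠ 0 := Complex.ofReal_ne_zero.2 Real.pi_ne_zero
  have ha' : (a : ℂ) ≠ 0 := Complex.ofReal_ne_zero.2 ha.ne'
  have e1 : (π : ℂ) / (((π * a : ℝ) : ℂ) * bet d s) = ((a⁻¹ : ℝ) : ℂ) * (bet d s)⁻¹ := by
    push_cast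
    field_simp
  rw [e1, mul_cpow_pos (by positivity) (inv_ne_zero hne)]
  congr 1
  · congr 1
    rw [show (1 / 2 : ℂ) = ((1 / 2 : ℝ) : ℂ) by push_cast; rfl, ← Complex.ofReal_cpow (by positivity),
      Real.inv_rpow ha.le, Real.rpow_neg ha.le]
  · congr 1
    push_cast
    field_simp
    ring

/-- the `n`-dimensional Gaussian integral -/
theorem gauss_n {d s : ℝ} (hd : 0 < d) (hs : 0 < s) {g : Fin n → ℝ} (hg : ∀ i, 0 < g i) (w : ℝ)
    (ξ : Fin n → ℝ) :
    ∫ z : Fin n → ℝ, ch ξ z * ((Real.exp (-(π * d * q g z)) : ℝ) : ℂ) * os s (q g z - w) =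
      Complex.exp (((π * s * w : ℝ) : ℂ) * Complex.I) *
        ((((∏ i, g i) ^ (-(1 / 2) : ℝ) : ℝ) : ℂ) * ((bet d s)⁻¹ ^ (1 / 2 : ℂ)) ^ n *
          Complex.exp (-((π * (∑ i, ξ i ^ 2 / g i) : ℝ) * (bet d s)⁻¹))) := by
  have h1 : ∀ z : Fin n → ℝ, ch ξ z * ((Real.exp (-(π * d * q g z)) : ℝ) : ℂ) * os s (q g z - w) =
      Complex.exp (((π * s * w : ℝ) : ℂ) * Complex.I) *
        ∏ i, (Complex.exp (Complex.I * (((-(2 * π * ξ i) : ℝ) : ℂ)) * z i) *
          Complex.exp (-((π * g i : ℝ) * bet d s) * z i ^ 2)) := by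
    intro z
    unfold ch os
    rw [Complex.ofReal_exp, ← Complex.exp_add, ← Complex.exp_add]
    simp_rw [← Complex.exp_add]
    rw [← Complex.exp_sum, ← Complex.exp_add]
    congr 1
    rw [Finset.sum_add_distrib]
    unfold q bet
    push_cast
    simp only [Finset.mul_sum, Finset.sum_mul, mul_sub, sub_mul, neg_mul, mul_neg, Finset.sum_neg_distrib, mul_add, add_mul, Finset.sum_add_distrib, neg_add]
    have e1 : ∀ i, 2 * (π : ℂ) * (z i * ξ i) * Complex.I = Complex.I * (2 * π * ξ i) * z i := by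
      intro i; ring
    have e2 : ∀ i, (π : ℂ) * d * (g i * z i ^ 2) = π * g i * d * z i ^ 2 := by
      intro i; ring
    have e3 : ∀ i, (π : ℂ) * s * (g i * z i ^ 2) * Complex.I = π * g i * (s * Complex.I) * z i ^ 2 := by
      intro i; ring
    simp_rw [e1, e2, e3]
    ring
  simp_rw [h1]
  rw [integral_const_mul]
  congr 1
  rw [integral_fintype_prod_volume_eq_prod (fun (i : Fin n) (x : ℝ) =>
    Complex.exp (Complex.I * (((-(2 * π * ξ i) : ℝ) : ℂ)) * x) *
          Complex.exp (-((π * g i : ℝ) * bet d s) * x ^ 2))]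
  simp_rw [fun i => gauss_one hd hs (hg i) (ξ i)]
  rw [Finset.prod_mul_distrib, Finset.prod_mul_distrib, Finset.prod_const, Finset.card_univ,
    Fintype.card_fin, ← Complex.exp_sum, ← Complex.ofReal_prod,
    Real.finsetProd_rpow _ _ (fun i _ => (hg i).le)]
  congr 2
  push_cast
  rw [Finset.mul_sum, Finset.sum_mul, Finset.sum_neg_distrib]

/-! ### Fubini -/

/-- the weight in the definition of the kernel -/
noncomputable def ph (n : ℕ) (y s : ℝ) : ℝ :=
  s ^ (((n : ℝ) - 1) / 2) * Real.exp (-(2 * π * s * y))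

theorem ph_nonneg {y s : ℝ} (hs : 0 < s) : 0 ≤ ph n y s := by
  unfold ph
  have := Real.rpow_nonneg hs.le (((n : ℝ) - 1) / 2)
  positivity

theorem ph_int (n : ℕ) {y : ℝ} (hy : 0 < y) : IntegrableOn (ph n y) (Ioi 0) := by
  have h := int_pow_exp (a := ((n : ℝ) + 1) / 2) (ε := 2 * π * y) (by positivity) (by positivity)
  refine h.congr_fun ?_ measurableSet_Ioi
  intro s _
  unfold ph
  beta_reduce
  rw [show ((n : ℝ) + 1) / 2 - 1 = ((n : ℝ) - 1) / 2 by ring,
    show 2 * π * y * s = 2 * π * s * y by ring]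

theorem gauss_int {d : ℝ} (hd : 0 < d) {g : Fin n → ℝ} (hg : ∀ i, 0 < g i) :
    Integrable fun z : Fin n → ℝ => Real.exp (-(π * d * q g z)) := by
  have h : Integrable (fun z : Fin n → ℝ => ∏ i, Real.exp (-(π * d * g i) * z i ^ 2)) :=
    Integrable.fintype_prod (f := fun i (x : ℝ) => Real.exp (-(π * d * g i) * x ^ 2))
      (μ := fun _ => volume) fun i => by
        have := hg i
        exact integrable_exp_neg_mul_sq (by positivity)
  refine h.congr (Eventually.of_forall fun z => ?_)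
  beta_reduce
  rw [← Real.exp_sum]
  congr 1
  unfold q
  rw [Finset.mul_sum, ← Finset.sum_neg_distrib]
  refine Finset.sum_congr rfl fun i _ => ?_
  ring

theorem fub {d y : ℝ} (hd : 0 < d) (hy : 0 < y) {g : Fin n → ℝ} (hg : ∀ i, 0 < g i) (w : ℝ)
    (ξ : Fin n → ℝ) :
    ∫ z : Fin n → ℝ, ch ξ z * ((Real.exp (-(π * d * q g z)) : ℝ) : ℂ) * Ker n y w g z =
      ∫ s in Ioi (0 : ℝ), ((ph n y s : ℝ) : ℂ) *
        (Complex.exp (((π * s * w : ℝ) : ℂ) * Complex.I) *
        ((((∏ i, g i) ^ (-(1 / 2) : ℝ) : ℝ) : ℂ) * ((bet d s)⁻¹ ^ (1 / 2 : ℂ)) ^ n *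
          Complex.exp (-((π * (∑ i, ξ i ^ 2 / g i) : ℝ) * (bet d s)⁻¹)))) := by
  have h1 : ∀ z : Fin n → ℝ, ch ξ z * ((Real.exp (-(π * d * q g z)) : ℝ) : ℂ) * Ker n y w g z =
      ∫ s in Ioi (0 : ℝ), ((ph n y s : ℝ) : ℂ) *
        (ch ξ z * ((Real.exp (-(π * d * q g z)) : ℝ) : ℂ) * os s (q g z - w)) := by
    intro z
    unfold Ker ph
    rw [← integral_const_mul]
    refine integral_congr_ae (Eventually.of_forall fun s => ?_)
    beta_reduce
    ring
  simp_rw [h1]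
  rw [integral_integral_swap]
  · refine setIntegral_congr_fun measurableSet_Ioi fun s hs => ?_
    rw [integral_const_mul, gauss_n hd hs hg w ξ]
  · have hdom : Integrable (fun p : (Fin n → ℝ) × ℝ => Real.exp (-(π * d * q g p.1)) * ph n y p.2)
        ((volume : Measure (Fin n → ℝ)).prod (volume.restrict (Ioi (0 : ℝ)))) :=
      (gauss_int hd hg).mul_prod (ph_int n hy)
    have hq : Measurable fun z : Fin n → ℝ => q g z := by
      unfold q
      fun_prop
    refine Integrable.mono' hdom ?_ ?_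
    · refine Measurable.aestronglyMeasurable ?_
      unfold Function.uncurry ph ch os
      fun_prop
    · have hmem : ∀ᵐ p : (Fin n → ℝ) × ℝ ∂((volume : Measure (Fin n → ℝ)).prod
          (volume.restrict (Ioi (0 : ℝ)))), p.2 ∈ Ioi (0 : ℝ) :=
        Measure.quasiMeasurePreserving_snd.ae (ae_restrict_mem measurableSet_Ioi)
      filter_upwards [hmem] with p hp
      have hp' : 0 < p.2 := hp
      unfold Function.uncurry
      rw [norm_mul, norm_mul, norm_mul, norm_ch, norm_os, Complex.norm_real, Complex.norm_real,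
        Real.norm_of_nonneg (ph_nonneg hp'), Real.norm_of_nonneg (Real.exp_pos _).le]
      rw [one_mul, mul_one, mul_comm]

/-! ### The limit -/

theorem lim_left (hn : 1 ≤ n) {y : ℝ} (hy : 0 < y) {g : Fin n → ℝ} (hg : ∀ i, 0 < g i) (w : ℝ)
    (ξ : Fin n → ℝ) :
    Tendsto (fun d : ℝ => ∫ z : Fin n → ℝ, ch ξ z * ((Real.exp (-(π * d * q g z)) : ℝ) : ℂ) *
      Ker n y w g z) (𝓝[>] 0) (𝓝 (∫ z : Fin n → ℝ, ch ξ z * Ker n y w g z)) := by
  have hq : Measurable fun z : Fin n → ℝ => q g z := by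
    unfold q
    fun_prop
  have hq0 : ∀ z : Fin n → ℝ, 0 ≤ q g z := fun z =>
    Finset.sum_nonneg fun i _ => mul_nonneg (hg i).le (sq_nonneg _)
  have hch : Measurable (ch ξ) := by
    unfold ch
    fun_prop
  refine tendsto_integral_filter_of_dominated_convergence (fun z => ‖Ker n y w g z‖) ?_ ?_ ?_ ?_
  · refine Eventually.of_forall fun d => ?_
    refine (Measurable.mul (hch.mul ?_) (measurable_Ker hy w g)).aestronglyMeasurable
    fun_prop
  · filter_upwards [self_mem_nhdsWithin] with d hd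
    refine Eventually.of_forall fun z => ?_
    have hd' : 0 < d := hd
    rw [norm_mul, norm_mul, norm_ch, one_mul, Complex.norm_real,
      Real.norm_of_nonneg (Real.exp_pos _).le]
    refine mul_le_of_le_one_left (norm_nonneg _) (Real.exp_le_one_iff.2 ?_)
    have := hq0 z
    have : 0 ≤ π * d * q g z := by positivity
    linarith
  · exact (integrable_Ker hn hy w hg).norm
  · refine Eventually.of_forall fun z => ?_
    have h1 : Tendsto (fun d : ℝ => ((Real.exp (-(π * d * q g z)) : ℝ) : ℂ)) (𝓝[>] 0) (𝓝 1) := by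
      have hc : Continuous fun d : ℝ => ((Real.exp (-(π * d * q g z)) : ℝ) : ℂ) := by fun_prop
      have := (hc.tendsto 0).mono_left (nhdsWithin_le_nhds (s := Ioi 0))
      simpa using this
    have h2 := (tendsto_const_nhds (x := ch ξ z)).mul h1
    have h3 := h2.mul (tendsto_const_nhds (x := Ker n y w g z))
    rw [mul_one] at h3
    exact h3

theorem lim_right {y : ℝ} (hy : 0 < y) (w P N : ℝ) (hN : 0 ≤ N) :
    Tendsto (fun d : ℝ => ∫ s in Ioi (0 : ℝ), ((ph n y s : ℝ) : ℂ) *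
        (Complex.exp (((π * s * w : ℝ) : ℂ) * Complex.I) *
        ((P : ℂ) * ((bet d s)⁻¹ ^ (1 / 2 : ℂ)) ^ n *
          Complex.exp (-((π * N : ℝ) * (bet d s)⁻¹))))) (𝓝[>] 0)
      (𝓝 (∫ s in Ioi (0 : ℝ), ((ph n y s : ℝ) : ℂ) *
        (Complex.exp (((π * s * w : ℝ) : ℂ) * Complex.I) *
        ((P : ℂ) * ((bet 0 s)⁻¹ ^ (1 / 2 : ℂ)) ^ n *
          Complex.exp (-((π * N : ℝ) * (bet 0 s)⁻¹)))))) := by
  have hcint : ∀ s : ℝ, 0 < s → Continuous fun d : ℝ => (bet d s)⁻¹ := by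
    intro s hs
    refine Continuous.inv₀ ?_ fun d => bet_ne hs
    unfold bet
    fun_prop
  have hslit : ∀ d s : ℝ, 0 < s → (bet d s)⁻¹ ∈ Complex.slitPlane := by
    intro d s hs
    refine Or.inr ?_
    rw [Complex.inv_im, bet_im]
    have : 0 < Complex.normSq (bet d s) := Complex.normSq_pos.2 (bet_ne hs)
    exact div_ne_zero (by linarith) this.ne'
  refine tendsto_integral_filter_of_dominated_convergence
    (fun s => |P| * (s ^ ((1 / 2 : ℝ) - 1) * Real.exp (-((2 * π * y) * s)))) ?_ ?_ ?_ ?_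
  · refine Eventually.of_forall fun d => ?_
    refine Measurable.aestronglyMeasurable ?_
    unfold ph bet
    fun_prop
  · filter_upwards [self_mem_nhdsWithin] with d hd
    have hd' : 0 < d := hd
    filter_upwards [ae_restrict_mem measurableSet_Ioi] with s hs
    have hs' : 0 < s := hs
    have e1 : ‖(bet d s)⁻¹ ^ (1 / 2 : ℂ)‖ ≤ s ^ (-(1 / 2) : ℝ) := by
      rw [show (1 / 2 : ℂ) = ((1 / 2 : ℝ) : ℂ) by push_cast; rfl, Complex.norm_cpow_real,
        Real.rpow_neg hs'.le, ← Real.inv_rpow hs'.le]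
      exact Real.rpow_le_rpow (norm_nonneg _) (norm_bet_inv_le hs') (by norm_num)
    have e2 : ‖Complex.exp (-((π * N : ℝ) * (bet d s)⁻¹))‖ ≤ 1 := by
      rw [Complex.norm_exp, Complex.neg_re, Complex.re_ofReal_mul, Real.exp_le_one_iff]
      have := re_bet_inv_nonneg (d := d) (s := s) hd'.le
      have : 0 ≤ π * N * ((bet d s)⁻¹).re := by positivity
      linarith
    have e3 : ‖((bet d s)⁻¹ ^ (1 / 2 : ℂ)) ^ n‖ ≤ (s ^ (-(1 / 2) : ℝ)) ^ n := by
      rw [norm_pow]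
      exact pow_le_pow_left₀ (norm_nonneg _) e1 n
    have e4 : ph n y s * (s ^ (-(1 / 2) : ℝ)) ^ n =
        s ^ ((1 / 2 : ℝ) - 1) * Real.exp (-((2 * π * y) * s)) := by
      unfold ph
      rw [← Real.rpow_natCast, ← Real.rpow_mul hs'.le, mul_right_comm, ← Real.rpow_add hs']
      congr 2
      · ring
      · ring
    rw [norm_mul, norm_mul, norm_mul, norm_mul, Complex.norm_real, Complex.norm_real,
      Real.norm_of_nonneg (ph_nonneg hs'), Complex.norm_exp_ofReal_mul_I, one_mul,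
      Real.norm_eq_abs]
    calc ph n y s * (|P| * ‖((bet d s)⁻¹ ^ (1 / 2 : ℂ)) ^ n‖ *
          ‖Complex.exp (-((π * N : ℝ) * (bet d s)⁻¹))‖) ≤
          ph n y s * (|P| * (s ^ (-(1 / 2) : ℝ)) ^ n * 1) := by
          refine mul_le_mul_of_nonneg_left ?_ (ph_nonneg hs')
          refine mul_le_mul (mul_le_mul_of_nonneg_left e3 (abs_nonneg _)) e2 (norm_nonneg _) ?_
          have := Real.rpow_nonneg hs'.le (-(1 / 2))
          positivity
      _ = |P| * (ph n y s * (s ^ (-(1 / 2) : ℝ)) ^ n) := by ring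
      _ = _ := by rw [e4]
  · exact (int_pow_exp (a := 1 / 2) (ε := 2 * π * y) (by norm_num) (by positivity)).const_mul _
  · filter_upwards [ae_restrict_mem measurableSet_Ioi] with s hs
    have hs' : 0 < s := hs
    have h1 := ((hcint s hs').tendsto 0).mono_left (nhdsWithin_le_nhds (s := Ioi 0))
    have h2 : Tendsto (fun d : ℝ => (bet d s)⁻¹ ^ (1 / 2 : ℂ)) (𝓝[>] 0)
        (𝓝 ((bet 0 s)⁻¹ ^ (1 / 2 : ℂ))) :=
      (continuousAt_cpow_const (hslit 0 s hs')).tendsto.comp h1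
    have h3 := (h2.pow n).const_mul (P : ℂ)
    have h4 := (h1.const_mul ((π * N : ℝ) : ℂ)).neg.cexp
    exact ((h3.mul h4).const_mul _).const_mul _

theorem bet_zero_cpow {s : ℝ} (hs : 0 < s) :
    (bet 0 s)⁻¹ ^ (1 / 2 : ℂ) = ((s ^ (-(1 / 2) : ℝ) : ℝ) : ℂ) *
      Complex.exp (-(Complex.I * (π / 4 : ℝ))) := by
  have e1 : (bet 0 s)⁻¹ = ((s⁻¹ : ℝ) : ℂ) * (-Complex.I) := by
    unfold bet
    rw [Complex.ofReal_zero, zero_add, mul_inv, Complex.inv_I, Complex.ofReal_inv]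
  rw [e1, mul_cpow_pos (by positivity) (by simp)]
  congr 1
  · rw [show (1 / 2 : ℂ) = ((1 / 2 : ℝ) : ℂ) by push_cast; rfl,
      ← Complex.ofReal_cpow (by positivity), Real.inv_rpow hs.le, Real.rpow_neg hs.le]
  · rw [Complex.cpow_def_of_ne_zero (by simp), Complex.log_neg_I]
    congr 1
    push_cast
    ring

/-- **C4** -/
theorem kHat (n : ℕ) (hn : 1 ≤ n) : KHat n := by
  intro g hg y t hy ht ξ
  set w : ℝ := t ^ 2 - y ^ 2 / t ^ 2 with hw
  set P : ℝ := (∏ i, g i) ^ (-(1 / 2) : ℝ) with hP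
  set N : ℝ := ∑ i, ξ i ^ 2 / g i with hN
  have hN0 : 0 ≤ N := Finset.sum_nonneg fun i _ => div_nonneg (sq_nonneg _) (hg i).le
  have hL := lim_left hn hy hg w ξ
  have hR := lim_right (n := n) hy w P N hN0
  have heq : (fun d : ℝ => ∫ z : Fin n → ℝ, ch ξ z * ((Real.exp (-(π * d * q g z)) : ℝ) : ℂ) *
      Ker n y w g z) =ᶠ[𝓝[>] 0] (fun d : ℝ => ∫ s in Ioi (0 : ℝ), ((ph n y s : ℝ) : ℂ) *
        (Complex.exp (((π * s * w : ℝ) : ℂ) * Complex.I) *
        ((P : ℂ) * ((bet d s)⁻¹ ^ (1 / 2 : ℂ)) ^ n *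
          Complex.exp (-((π * N : ℝ) * (bet d s)⁻¹))))) := by
    filter_upwards [self_mem_nhdsWithin] with d hd
    exact fub hd hy hg w ξ
  have key := tendsto_nhds_unique (hL.congr' heq) hR
  change ∫ z : Fin n → ℝ, ch ξ z * Ker n y w g z = _
  rw [key]
  have hτ2 : tau y t ^ 2 = (w : ℂ) + ((2 * y : ℝ) : ℂ) * Complex.I := by
    have ht0 : (t : ℂ) ≠ 0 := Complex.ofReal_ne_zero.2 ht.ne'
    unfold tau
    rw [hw]
    push_cast
    have hI := Complex.I_sq
    field_simp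
    ring_nf
    rw [hI]
    ring
  have hcs := cs (Nm g ξ) (Real.sqrt_nonneg _) (tau y t) (by unfold tau; simpa using ht)
    (by unfold tau; simp; positivity)
  have hNm : ((Nm g ξ : ℝ) : ℂ) ^ 2 = (N : ℂ) := by
    unfold Nm
    rw [← Complex.ofReal_pow, Real.sq_sqrt hN0]
  have hpt : ∀ s ∈ Ioi (0 : ℝ), ((ph n y s : ℝ) : ℂ) *
        (Complex.exp (((π * s * w : ℝ) : ℂ) * Complex.I) *
        ((P : ℂ) * ((bet 0 s)⁻¹ ^ (1 / 2 : ℂ)) ^ n *
          Complex.exp (-((π * N : ℝ) * (bet 0 s)⁻¹)))) =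
      ((P : ℂ) * Complex.exp (-(Complex.I * (π * n / 4 : ℝ)))) *
        ((((s ^ (-(1 / 2) : ℝ) : ℝ)) : ℂ) *
        Complex.exp (Complex.I * Real.pi * s * tau y t ^ 2) *
        Complex.exp (Complex.I * Real.pi * (Nm g ξ : ℝ) ^ 2 / s)) := by
    intro s hs
    have hs' : 0 < s := hs
    have hs0 : (s : ℂ) ≠ 0 := Complex.ofReal_ne_zero.2 hs'.ne'
    rw [bet_zero_cpow hs', mul_pow, ← Complex.exp_nat_mul, hτ2, hNm, ← Complex.ofReal_pow]
    have e4 : s ^ (((n : ℝ) - 1) / 2) * (s ^ (-(1 / 2) : ℝ)) ^ n = s ^ (-(1 / 2) : ℝ) := by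
      rw [← Real.rpow_natCast, ← Real.rpow_mul hs'.le, ← Real.rpow_add hs']
      congr 1
      ring
    have e5 : -(((π * N : ℝ) : ℂ) * (bet 0 s)⁻¹) = Complex.I * π * (N : ℂ) / s := by
      unfold bet
      rw [Complex.ofReal_zero, zero_add, mul_inv, Complex.inv_I]
      push_cast
      field_simp
    have e4C : ((s ^ (((n : ℝ) - 1) / 2) : ℝ) : ℂ) * ((s ^ (-(1 / 2) : ℝ) : ℝ) : ℂ) ^ n =
        ((s ^ (-(1 / 2) : ℝ) : ℝ) : ℂ) := by
      rw [← Complex.ofReal_pow, ← Complex.ofReal_mul, e4]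
    rw [e5]
    unfold ph
    push_cast
    rw [show Complex.I * (π : ℂ) * s * ((w : ℂ) + 2 * y * Complex.I) =
      (π * s * w) * Complex.I + -(2 * π * s * y) by
        linear_combination (2 * π * s * y : ℂ) * Complex.I_sq, Complex.exp_add]
    rw [show (n : ℂ) * -(Complex.I * (π / 4)) = -(Complex.I * (π * n / 4)) by ring]
    generalize ((s ^ (((n : ℝ) - 1) / 2) : ℝ) : ℂ) = a at e4C ⊢
    generalize ((s ^ (-(1 / 2) : ℝ) : ℝ) : ℂ) = b at e4C ⊢
    generalize Complex.exp (-(2 * ↑π * ↑s * ↑y)) = c1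
    generalize Complex.exp (↑π * ↑s * ↑w * Complex.I) = c2
    generalize Complex.exp (-(Complex.I * (↑π * ↑n / 4))) = c3
    generalize Complex.exp (Complex.I * ↑π * ↑N / ↑s) = c4
    linear_combination (c1 * c2 * P * c3 * c4) * e4C
  rw [setIntegral_congr_fun measurableSet_Ioi hpt, integral_const_mul, hcs]
  have e6 : Complex.exp (-(Complex.I * (π * n / 4 : ℝ))) * Complex.exp (Complex.I * Real.pi / 4) =
      Complex.exp (-(Complex.I * (π * ((n : ℝ) - 1) / 4 : ℝ))) := by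
    rw [← Complex.exp_add]
    congr 1
    push_cast
    ring
  rw [← e6]
  ring

end Pool.Agent.T9h82.LS
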