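import Pool.Agent.T9h82.LS.E3

/-!
# The multipliers of the high and of the low frequencies (MP_ee74d2_an): S_HI, S_LO from S_E3
-/

set_option autoImplicit false

namespace Pool.Agent.T9h82.LS

open MeasureTheory Real Pool.Agent.T9h44.LS4 Pool.Agent.N303.LS
open Filter Topology Set
open scoped ENNReal SchwartzMap RealInnerProductSpace ContDiff Pointwise

variable {n : ℕ}

theorem contDiff_coord (i : Fin n) : ContDiff ℝ ∞ (fun η : E n => η i) :=
  (EuclideanSpace.proj (𝕜 := ℝ) i).contDiff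

theorem Qd_pos {γ : Fin n → ℝ} (hγ : ∀ i, 0 < γ i) {η : E n} (hη : η ≠ 0) : 0 < Qd γ η := by
  obtain ⟨i, hi⟩ : ∃ i, η i ≠ 0 := by
    by_contra hcon
    push Not at hcon
    exact hη (by ext i; simpa using hcon i)
  unfold Qd
  refine Finset.sum_pos' (fun j _ => mul_nonneg (hγ j).le (sq_nonneg _)) ⟨i, Finset.mem_univ _, ?_⟩
  exact mul_pos (hγ i) (by positivity)

theorem Qd_nonneg {γ : Fin n → ℝ} (hγ : ∀ i, 0 < γ i) (η : E n) : 0 ≤ Qd γ η :=
  Finset.sum_nonneg fun j _ => mul_nonneg (hγ j).le (sq_nonneg _)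

/-- the quadratic form is smooth in all variables -/
theorem contDiff_Qd : ContDiff ℝ ∞ (fun p : (Fin n → ℝ) × E n => Qd p.1 p.2) := by
  unfold Qd
  refine ContDiff.sum fun i _ => ?_
  refine ContDiff.mul ?_ (ContDiff.pow ?_ 2)
  · exact (contDiff_apply ℝ ℝ i).comp contDiff_fst
  · exact (contDiff_coord i).comp contDiff_snd

theorem hi (n : ℕ) (h : S_E3 n) : S_HI n := by
  intro a b ψ hψ h1 h2
  set U : Set (ℝ × (Fin n → ℝ) × ℝ) := {p | 0 < p.1 ∧ (∀ i, 0 < p.2.1 i) ∧ -1 < p.2.2} with hU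
  set K : Set (ℝ × (Fin n → ℝ) × ℝ) :=
    Icc (1 : ℝ) 2 ×ˢ ((Set.univ.pi fun _ => Icc (1 / 2 : ℝ) 1) ×ˢ Icc (0 : ℝ) 1) with hK
  have hUo : IsOpen U := by
    have e : U = {p | 0 < p.1} ∩ ((⋂ i, {p | 0 < p.2.1 i}) ∩ {p | -1 < p.2.2}) := by
      ext p
      simp [hU]
    rw [e]
    refine (isOpen_lt continuous_const continuous_fst).inter
      ((isOpen_iInter_of_finite fun i => ?_).inter ?_)
    · exact isOpen_lt continuous_const (by fun_prop)
    · exact isOpen_lt continuous_const (by fun_prop)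
  have hKc : IsCompact K :=
    isCompact_Icc.prod ((isCompact_univ_pi fun _ => isCompact_Icc).prod isCompact_Icc)
  have hKU : K ⊆ U := by
    rintro ⟨t, γ, κ⟩ ⟨ht, hγ, hκ⟩
    refine ⟨?_, fun i => ?_, ?_⟩
    · have : (1 : ℝ) ≤ t := ht.1
      change 0 < t
      linarith
    · have := (hγ i (mem_univ i)).1
      change 0 < γ i
      linarith
    · have : (0 : ℝ) ≤ κ := hκ.1
      change -1 < κ
      linarith
  set Θ : (ℝ × (Fin n → ℝ) × ℝ) × E n → ℂ := fun q =>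
    ((Real.exp (2 * π / q.1.1 * Real.sqrt (Qd q.1.2.1 q.2)) * Qd q.1.2.1 q.2 ^ b *
        (q.1.2.2 + 4 * π ^ 2 * ‖q.2‖ ^ 2) ^ a * ψ q.2 : ℝ) : ℂ) with hΘ
  have hsm : ContDiffOn ℝ ∞ Θ (U ×ˢ univ) := by
    rintro ⟨⟨t, γ, κ⟩, η⟩ ⟨⟨ht, hγ, hκ⟩, -⟩
    refine ContDiffAt.contDiffWithinAt ?_
    by_cases hη : ‖η‖ < 1 / 2
    · have hc : ContDiffAt ℝ ∞ (fun _ : (ℝ × (Fin n → ℝ) × ℝ) × E n => (0 : ℂ))
          ((t, γ, κ), η) := contDiffAt_const
      refine hc.congr_of_eventuallyEq ?_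
      have ho : IsOpen {q : (ℝ × (Fin n → ℝ) × ℝ) × E n | ‖q.2‖ < 1 / 2} :=
        isOpen_lt (by fun_prop) continuous_const
      filter_upwards [ho.mem_nhds hη] with q hq
      have hq' : ‖q.2‖ < 1 / 2 := hq
      rw [hΘ]
      beta_reduce
      rw [h1 _ hq', mul_zero, Complex.ofReal_zero]
    · have hη' : 1 / 2 ≤ ‖η‖ := not_lt.1 hη
      have hη0 : η ≠ 0 := by
        rintro rfl
        rw [norm_zero] at hη'
        norm_num at hη'
      have hQ : 0 < Qd γ η := Qd_pos hγ hη0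
      have hB : 0 < κ + 4 * π ^ 2 * ‖η‖ ^ 2 := by
        have hκ' : -1 < κ := hκ
        have hπ := Real.pi_gt_three
        have : (1 / 2 : ℝ) ^ 2 ≤ ‖η‖ ^ 2 := by gcongr
        nlinarith [mul_pos Real.pi_pos Real.pi_pos]
      have c1 : ContDiffAt ℝ ∞ (fun q : (ℝ × (Fin n → ℝ) × ℝ) × E n => Qd q.1.2.1 q.2)
          ((t, γ, κ), η) := by
        have : ContDiff ℝ ∞ (fun q : (ℝ × (Fin n → ℝ) × ℝ) × E n => (q.1.2.1, q.2)) := by
          fun_prop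
        exact (contDiff_Qd.comp this).contDiffAt
      have c2 : ContDiffAt ℝ ∞ (fun q : (ℝ × (Fin n → ℝ) × ℝ) × E n => 2 * π / q.1.1)
          ((t, γ, κ), η) := by
        refine contDiffAt_const.div ?_ ht.ne'
        exact (contDiff_fst.comp contDiff_fst).contDiffAt
      have c3 : ContDiffAt ℝ ∞ (fun q : (ℝ × (Fin n → ℝ) × ℝ) × E n =>
          q.1.2.2 + 4 * π ^ 2 * ‖q.2‖ ^ 2) ((t, γ, κ), η) := by
        have d1 : ContDiff ℝ ∞ (fun q : (ℝ × (Fin n → ℝ) × ℝ) × E n => q.1.2.2) := by fun_prop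
        have d2 : ContDiff ℝ ∞ (fun q : (ℝ × (Fin n → ℝ) × ℝ) × E n => ‖q.2‖ ^ 2) :=
          (contDiff_norm_sq ℝ).comp contDiff_snd
        exact (d1.add (contDiff_const.mul d2)).contDiffAt
      have c4 : ContDiffAt ℝ ∞ (fun q : (ℝ × (Fin n → ℝ) × ℝ) × E n => ψ q.2)
          ((t, γ, κ), η) := (hψ.comp contDiff_snd).contDiffAt
      have c5 : ContDiffAt ℝ ∞ (fun q : (ℝ × (Fin n → ℝ) × ℝ) × E n =>
          Real.exp (2 * π / q.1.1 * Real.sqrt (Qd q.1.2.1 q.2)) * Qd q.1.2.1 q.2 ^ b *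
            (q.1.2.2 + 4 * π ^ 2 * ‖q.2‖ ^ 2) ^ a * ψ q.2) ((t, γ, κ), η) := by
        refine ContDiffAt.mul (ContDiffAt.mul (ContDiffAt.mul ?_ ?_) ?_) c4
        · exact (c2.mul (c1.sqrt hQ.ne')).exp
        · exact c1.rpow_const_of_ne hQ.ne'
        · exact c3.rpow_const_of_ne hB.ne'
      exact Complex.ofRealCLM.contDiff.contDiffAt.comp _ c5
  have hz : ∀ p ∈ U, ∀ ξ ∉ Metric.closedBall (0 : E n) 2, Θ (p, ξ) = 0 := by
    intro p _ ξ hξ
    have hξ' : 2 < ‖ξ‖ := by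
      by_contra hcon
      exact hξ (by simpa using not_lt.1 hcon)
    rw [hΘ]
    beta_reduce
    rw [h2 _ hξ', mul_zero, Complex.ofReal_zero]
  obtain ⟨C, hC0, hC⟩ := h _ U K hUo hKc hKU Θ hsm _ (isCompact_closedBall 0 2) hz
  refine ⟨C, hC0, fun t ht γ hγ κ hκ R hR p hp => ?_⟩
  exact hC (t, γ, κ) ⟨ht, fun i _ => hγ i, hκ⟩ R hR p hp

end Pool.Agent.T9h82.LS
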