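import Pool.Agent.T9h44.LS4.AS2
import Pool.Agent.T9h82.LS.KHat
import Pool.Agent.TH280.LS.Base

/-!
# The L^2 bound of the convolution with the kernel (MP_ee74d2_an)
-/

set_option autoImplicit false

namespace Pool.Agent.T9h82.LS

open MeasureTheory Real Pool.Agent.T9h44.LS4 Pool.Agent.N303.LS
open Filter Topology Set
open scoped ENNReal RealInnerProductSpace FourierTransform Convolution

variable {n : ℕ}

/-- bounded and integrable functions are square integrable -/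
theorem memLp2 {V : Type*} [MeasurableSpace V] {μ : Measure V} {f : V → ℂ} (hf : Integrable f μ)
    {B : ℝ} (hB : ∀ u, ‖f u‖ ≤ B) : MemLp f 2 μ := by
  refine (memLp_two_iff_integrable_sq_norm hf.aestronglyMeasurable).2 ?_
  refine (hf.norm.const_mul B).mono' (by fun_prop (disch := exact hf.aestronglyMeasurable)) ?_
  refine Eventually.of_forall fun u => ?_
  rw [Real.norm_of_nonneg (by positivity), sq]
  exact mul_le_mul_of_nonneg_right (hB u) (norm_nonneg _)

theorem norm_hat_le (hn : 1 ≤ n) {y t : ℝ} (hy : 0 < y) (ht : 1 ≤ t) {g : Fin n → ℝ}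
    (hg : ∀ i, 1 ≤ g i) (ξ : E n) :
    ‖𝓕 (fun z : E n => Ker n y (t ^ 2 - y ^ 2 / t ^ 2) g z.ofLp) ξ‖ ≤ 1 := by
  have ht0 : 0 < t := by linarith
  have hg0 : ∀ i, 0 < g i := fun i => by have := hg i; linarith
  have h := kHat n hn g hg0 y t hy ht0 ξ.ofLp
  have e1 : 𝓕 (fun z : E n => Ker n y (t ^ 2 - y ^ 2 / t ^ 2) g z.ofLp) ξ =
      ∫ z : Fin n → ℝ, Complex.exp (((-(2 * π * ∑ i, z i * ξ.ofLp i) : ℝ) : ℂ) * Complex.I) *
        Ker n y (t ^ 2 - y ^ 2 / t ^ 2) g z := by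
    rw [Real.fourier_eq']
    have e2 := vp.integral_comp (MeasurableEquiv.toLp 2 (Fin n → ℝ)).symm.measurableEmbedding
      (fun z : Fin n → ℝ => Complex.exp (((-(2 * π * ∑ i, z i * ξ.ofLp i) : ℝ) : ℂ) * Complex.I) *
        Ker n y (t ^ 2 - y ^ 2 / t ^ 2) g z)
    rw [← e2]
    refine integral_congr_ae (Eventually.of_forall fun z => ?_)
    beta_reduce
    rw [smul_eq_mul]
    congr 4
    rw [PiLp.inner_apply, neg_mul, neg_mul]
    congr 2
    refine Finset.sum_congr rfl fun i _ => ?_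
    simp [mul_comm]
  rw [e1, h, norm_mul, norm_div, norm_mul, Complex.norm_real]
  have hP : 1 ≤ ∏ i, g i := by
    calc (1 : ℝ) = ∏ _i : Fin n, (1 : ℝ) := by simp
      _ ≤ ∏ i, g i := Finset.prod_le_prod (fun _ _ => zero_le_one) fun i _ => hg i
  have a1 : ‖(∏ i, g i) ^ (-(1 / 2) : ℝ)‖ ≤ 1 := by
    rw [Real.norm_of_nonneg (by positivity)]
    exact Real.rpow_le_one_of_one_le_of_nonpos hP (by norm_num)
  have a2 : ‖Complex.exp (-(Complex.I * (π * ((n : ℝ) - 1) / 4 : ℝ)))‖ = 1 := by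
    rw [Complex.norm_exp, Complex.neg_re, mul_comm, Complex.re_ofReal_mul, Complex.I_re, mul_zero,
      neg_zero, Real.exp_zero]
  have a3 : 1 ≤ ‖tau y t‖ := by
    have h1 := Complex.abs_re_le_norm (tau y t)
    have h2 : (tau y t).re = t := by unfold tau; simp
    rw [h2, abs_of_pos ht0] at h1
    linarith
  have a4 : ‖Complex.exp (2 * π * Complex.I * (Nm g ξ.ofLp : ℝ) * tau y t)‖ ≤ 1 := by
    rw [Complex.norm_exp, Real.exp_le_one_iff]
    have e : (2 * π * Complex.I * (Nm g ξ.ofLp : ℝ) * tau y t).re =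
        -(2 * π * Nm g ξ.ofLp * (y / t)) := by
      unfold tau
      simp
    rw [e]
    have hN : 0 ≤ Nm g ξ.ofLp := Real.sqrt_nonneg _
    have : 0 ≤ 2 * π * Nm g ξ.ofLp * (y / t) := by positivity
    linarith
  rw [a2, mul_one]
  have a5 : ‖(∏ i, g i) ^ (-(1 / 2) : ℝ)‖ / ‖tau y t‖ ≤ 1 := by
    rw [div_le_one (by linarith)]
    exact a1.trans a3
  exact mul_le_one₀ a5 (norm_nonneg _) a4

/-- the `L^2` bound -/
theorem l2 (n : ℕ) (hn : 1 ≤ n) (F : (Fin n → ℝ) → ℂ) (_hFm : Measurable F) (hFi : Integrable F)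
    (hFb : ∃ B : ℝ, ∀ u, ‖F u‖ ≤ B) (y t : ℝ) (hy : 0 < y) (ht : 1 ≤ t) (g : Fin n → ℝ)
    (hg : ∀ i, 1 ≤ g i) :
    ∫⁻ x : Fin n → ℝ, ‖∫ u, Ker n y (t ^ 2 - y ^ 2 / t ^ 2) g (x - u) * F u‖ₑ ^ (2 : ℝ) ≤
      ∫⁻ u, ‖F u‖ₑ ^ (2 : ℝ) := by
  obtain ⟨B, hB⟩ := hFb
  have hg0 : ∀ i, 0 < g i := fun i => by have := hg i; linarith
  have hemb := (MeasurableEquiv.toLp 2 (Fin n → ℝ)).symm.measurableEmbedding
  set k : E n → ℂ := fun z => Ker n y (t ^ 2 - y ^ 2 / t ^ 2) g z.ofLp with hk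
  set f : E n → ℂ := fun u => F u.ofLp with hf
  have hki : Integrable k := by
    have := integrable_Ker hn hy (t ^ 2 - y ^ 2 / t ^ 2) hg0
    exact (vp.integrable_comp_emb hemb).2 this
  have hfi : Integrable f := (vp.integrable_comp_emb hemb).2 hFi
  have hf2 : MemLp f 2 := memLp2 hfi fun u => hB _
  set c : E n → ℂ := f ⋆[ContinuousLinearMap.mul ℂ ℂ, volume] k with hc
  have hcv : ∀ x : E n, c x = ∫ u : Fin n → ℝ, Ker n y (t ^ 2 - y ^ 2 / t ^ 2) g (x.ofLp - u) * F u := by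
    intro x
    rw [hc, convolution_def]
    have e2 := vp.integral_comp hemb (fun u : Fin n → ℝ =>
      Ker n y (t ^ 2 - y ^ 2 / t ^ 2) g (x.ofLp - u) * F u)
    rw [← e2]
    refine integral_congr_ae (Eventually.of_forall fun u => ?_)
    beta_reduce
    rw [ContinuousLinearMap.mul_apply', mul_comm]
    rfl
  have hci : Integrable c := hfi.integrable_convolution _ hki
  have hcb : ∀ x, ‖c x‖ ≤ B * ∫ z, ‖k z‖ := by
    intro x
    rw [hc, convolution_def]
    refine (norm_integral_le_integral_norm _).trans ?_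
    have h1 : Integrable fun u : E n => B * ‖k (x - u)‖ :=
      (hki.norm.comp_sub_left x).const_mul B
    calc ∫ u : E n, ‖(ContinuousLinearMap.mul ℂ ℂ) (f u) (k (x - u))‖
        ≤ ∫ u : E n, B * ‖k (x - u)‖ := by
          refine integral_mono_of_nonneg (Eventually.of_forall fun _ => norm_nonneg _) h1
            (Eventually.of_forall fun u => ?_)
          beta_reduce
          rw [ContinuousLinearMap.mul_apply', norm_mul]
          exact mul_le_mul_of_nonneg_right (hB _) (norm_nonneg _)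
      _ = B * ∫ z, ‖k z‖ := by
          rw [integral_const_mul, integral_sub_left_eq_self (fun z => ‖k z‖) volume x]
  have hc2 : MemLp c 2 := memLp2 hci hcb
  have p1 := Pool.Agent.TH280.LS.plancherel c hci hc2
  have p2 := Pool.Agent.TH280.LS.plancherel f hfi hf2
  have hle : ∫⁻ z : E n, ‖c z‖ₑ ^ 2 ≤ ∫⁻ z : E n, ‖f z‖ₑ ^ 2 := by
    rw [← p1, ← p2]
    refine lintegral_mono fun ξ => ?_
    have e : FourierTransform.fourier c ξ = FourierTransform.fourier f ξ *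
        FourierTransform.fourier k ξ := Real.fourier_mul_convolution_eq hfi hki ξ
    rw [e, enorm_mul]
    have h1 : ‖FourierTransform.fourier k ξ‖ₑ ≤ 1 := by
      have := norm_hat_le hn hy ht hg ξ
      rw [← ofReal_norm, ← ENNReal.ofReal_one]
      exact ENNReal.ofReal_le_ofReal this
    calc (‖FourierTransform.fourier f ξ‖ₑ * ‖FourierTransform.fourier k ξ‖ₑ) ^ 2
        ≤ (‖FourierTransform.fourier f ξ‖ₑ * 1) ^ 2 := by gcongr
      _ = _ := by rw [mul_one]
  have q1 : ∫⁻ x : Fin n → ℝ, ‖∫ u, Ker n y (t ^ 2 - y ^ 2 / t ^ 2) g (x - u) * F u‖ₑ ^ (2 : ℝ) =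
      ∫⁻ z : E n, ‖c z‖ₑ ^ 2 := by
    rw [← lint_E]
    refine lintegral_congr fun z => ?_
    rw [hcv, ENNReal.rpow_two]
  have q2 : ∫⁻ u, ‖F u‖ₑ ^ (2 : ℝ) = ∫⁻ z : E n, ‖f z‖ₑ ^ 2 := by
    rw [← lint_E]
    refine lintegral_congr fun z => ?_
    rw [ENNReal.rpow_two]
  rw [q1, q2]
  exact hle

end Pool.Agent.T9h82.LS
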