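import Pool.Agent.T9h44.LS4.Stm
import Pool.Agent.N558.LS.MUL

/-!
# Families of Schwartz multipliers with bounded seminorms (MP_ee74d2_an): S_E2
-/

set_option autoImplicit false

namespace Pool.Agent.T9h82.LS

open MeasureTheory Real Pool.Agent.T9h44.LS4 Pool.Agent.N303.LS
open Filter Topology Set
open scoped ENNReal NNReal SchwartzMap RealInnerProductSpace FourierTransform

variable {d : ℕ}

theorem inv_cont {G : E d → ℂ} (hG : Integrable G) : Continuous (inv G) := by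
  unfold inv
  refine continuous_of_dominated (bound := fun ξ => ‖G ξ‖) ?_ ?_ hG.norm ?_
  · intro x
    refine AEStronglyMeasurable.mul ?_ hG.aestronglyMeasurable
    exact (Continuous.aestronglyMeasurable (by fun_prop))
  · intro x
    refine Eventually.of_forall fun ξ => ?_
    rw [norm_mul, Complex.norm_exp_ofReal_mul_I, one_mul]
  · refine Eventually.of_forall fun ξ => ?_
    fun_prop

/-- the multiplier is an average of translations -/
theorem inv_mul_eq' {Ω : Type} [MeasurableSpace Ω] (μ : Measure Ω) [SFinite μ] (y : Ω → E d)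
    (κ : Ω → ℂ) (hy : Measurable y) (hκ : Integrable κ μ) {G : E d → ℂ} (hG : Integrable G)
    (x : E d) :
    inv (fun ξ => (∫ q, Complex.exp (((-(2 * Real.pi * ⟪y q, ξ⟫) : ℝ) : ℂ) *
          Complex.I) * κ q ∂μ) * G ξ) x = ∫ q, κ q * inv G (x - y q) ∂μ := by
  unfold inv
  have e1 : ∀ ξ : E d, Complex.exp (((2 * Real.pi * ⟪x, ξ⟫ : ℝ) : ℂ) * Complex.I) *
      ((∫ q, Complex.exp (((-(2 * Real.pi * ⟪y q, ξ⟫) : ℝ) : ℂ) *
          Complex.I) * κ q ∂μ) * G ξ) =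
      ∫ q, Complex.exp (((2 * Real.pi * ⟪x - y q, ξ⟫ : ℝ) : ℂ) * Complex.I) *
        (G ξ * κ q) ∂μ := by
    intro ξ
    rw [← integral_mul_const, ← integral_const_mul]
    refine integral_congr_ae (Filter.Eventually.of_forall fun q => ?_)
    simp only
    have e2 : Complex.exp (((2 * Real.pi * ⟪x - y q, ξ⟫ : ℝ) : ℂ) * Complex.I) =
        Complex.exp (((2 * Real.pi * ⟪x, ξ⟫ : ℝ) : ℂ) * Complex.I) *
          Complex.exp (((-(2 * Real.pi * ⟪y q, ξ⟫) : ℝ) : ℂ) * Complex.I) := by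
      rw [← Complex.exp_add, inner_sub_left]
      congr 1
      push_cast
      ring
    rw [e2]
    ring
  simp only [e1]
  have hint : Integrable (Function.uncurry fun (ξ : E d) (q : Ω) =>
      Complex.exp (((2 * Real.pi * ⟪x - y q, ξ⟫ : ℝ) : ℂ) * Complex.I) *
        (G ξ * κ q)) (volume.prod μ) := by
    have h1 : Integrable (fun z : E d × Ω => G z.1 * κ z.2) (volume.prod μ) :=
      hG.mul_prod hκ
    have hm : Measurable (fun z : E d × Ω =>
        Complex.exp (((2 * Real.pi * ⟪x - y z.2, z.1⟫ : ℝ) : ℂ) * Complex.I)) := by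
      have h2 : Measurable (fun z : E d × Ω => ⟪x - y z.2, z.1⟫) := by
        have h3 : Measurable (fun z : E d × Ω => (x - y z.2, z.1)) :=
          (measurable_const.sub (hy.comp measurable_snd)).prodMk measurable_fst
        exact (continuous_inner.measurable).comp h3
      fun_prop
    refine h1.mono (hm.aestronglyMeasurable.mul h1.aestronglyMeasurable)
      (Filter.Eventually.of_forall fun z => ?_)
    simp only [Function.uncurry]
    rw [norm_mul, Complex.norm_exp_ofReal_mul_I, one_mul]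
  rw [integral_integral_swap hint]
  refine integral_congr_ae (Filter.Eventually.of_forall fun q => ?_)
  simp only
  have e3 : ∀ ξ : E d, Complex.exp (((2 * Real.pi * ⟪x - y q, ξ⟫ : ℝ) : ℂ) * Complex.I) *
        (G ξ * κ q) =
      (Complex.exp (((2 * Real.pi * ⟪x - y q, ξ⟫ : ℝ) : ℂ) * Complex.I) *
        G ξ) * κ q := fun ξ => by ring
  simp only [e3]
  rw [integral_mul_const, mul_comm]

/-- averages of translations are bounded on `L^p` -/
theorem mul_bd {Ω : Type} [MeasurableSpace Ω] (μ : Measure Ω) [SFinite μ] (y : Ω → E d)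
    (κ : Ω → ℂ) (hy : Measurable y) (hκ : Integrable κ μ) {G : E d → ℂ} (hG : Integrable G)
    {p : ℝ} (hp : 1 ≤ p) :
    ∫⁻ x : E d, ‖inv (fun ξ => (∫ q, Complex.exp (((-(2 * Real.pi * ⟪y q, ξ⟫) : ℝ) : ℂ) *
          Complex.I) * κ q ∂μ) * G ξ) x‖ₑ ^ p ≤
      (∫⁻ q, ‖κ q‖ₑ ∂μ) ^ p * ∫⁻ x : E d, ‖inv G x‖ₑ ^ p := by
  have hp0 : 0 < p := by linarith
  have hgm : Measurable (inv G) := (inv_cont hG).measurable
  have hk0 : AEMeasurable (fun q => ‖κ q‖ₑ) μ := hκ.1.enorm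
  set k := hk0.mk with hkdef
  have hk : Measurable k := hk0.measurable_mk
  have hkae : (fun q => ‖κ q‖ₑ) =ᵐ[μ] k := hk0.ae_eq_mk
  have hA : ∫⁻ q, ‖κ q‖ₑ ∂μ = ∫⁻ q, k q ∂μ := lintegral_congr_ae hkae
  have hG2 : Measurable (fun z : E d × Ω => inv G (z.1 - y z.2)) :=
    hgm.comp (measurable_fst.sub (hy.comp measurable_snd))
  have h1 : ∀ x : E d, ‖inv (fun ξ => (∫ q, Complex.exp (((-(2 * Real.pi * ⟪y q, ξ⟫) : ℝ) : ℂ) *
          Complex.I) * κ q ∂μ) * G ξ) x‖ₑ ^ p ≤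
      (∫⁻ q, k q ∂μ) ^ (p - 1) * ∫⁻ q, k q * ‖inv G (x - y q)‖ₑ ^ p ∂μ := by
    intro x
    rw [inv_mul_eq' μ y κ hy hκ hG x]
    have h2 : ‖∫ q, κ q * inv G (x - y q) ∂μ‖ₑ ≤ ∫⁻ q, k q * ‖inv G (x - y q)‖ₑ ∂μ := by
      refine (enorm_integral_le_lintegral_enorm _).trans (le_of_eq ?_)
      refine lintegral_congr_ae ?_
      filter_upwards [hkae] with q hq
      rw [enorm_mul, ← hq]
    exact (ENNReal.rpow_le_rpow h2 hp0.le).trans (Pool.Agent.N558.LS.jensen μ k hk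
      (fun q => inv G (x - y q)) (hgm.comp (measurable_const.sub hy)) hp)
  refine (lintegral_mono h1).trans ?_
  have hm2 : Measurable (fun z : E d × Ω => k z.2 * ‖inv G (z.1 - y z.2)‖ₑ ^ p) :=
    (hk.comp measurable_snd).mul (hG2.enorm.pow_const p)
  have hm3 : Measurable (fun x : E d => ∫⁻ q, k q * ‖inv G (x - y q)‖ₑ ^ p ∂μ) :=
    hm2.lintegral_prod_right'
  rw [lintegral_const_mul _ hm3, lintegral_lintegral_swap hm2.aemeasurable]
  have h5 : ∀ q, ∫⁻ x : E d, k q * ‖inv G (x - y q)‖ₑ ^ p =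
      k q * ∫⁻ x : E d, ‖inv G x‖ₑ ^ p := by
    intro q
    have h7 : Measurable (fun x : E d => ‖inv G (x - y q)‖ₑ ^ p) :=
      (hgm.comp (measurable_id.sub measurable_const)).enorm.pow_const p
    rw [lintegral_const_mul _ h7,
      lintegral_sub_right_eq_self (fun x : E d => ‖inv G x‖ₑ ^ p) (y q)]
  simp only [h5]
  rw [lintegral_mul_const _ hk, hA, ← mul_assoc]
  refine le_of_eq ?_
  congr 1
  have h6 := ENNReal.rpow_add_of_nonneg (x := ∫⁻ q, k q ∂μ) (p - 1) 1 (by linarith) zero_le_one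
  rw [ENNReal.rpow_one, sub_add_cancel] at h6
  rw [h6]

/-- the `L^1` norms of the inverse Fourier transforms of a bounded family -/
theorem fam_L1 {ι : Type} (Θ : ι → 𝓢(E d, ℂ))
    (h : ∀ k m : ℕ, ∃ C : ℝ, ∀ i, SchwartzMap.seminorm ℝ k m (Θ i) ≤ C) :
    ∃ C : ℝ, 0 < C ∧ ∀ i, ∫ x, ‖(𝓕⁻ (Θ i) : 𝓢(E d, ℂ)) x‖ ≤ C := by
  set L : 𝓢(E d, ℂ) →L[ℝ] Lp ℂ 1 (volume : Measure (E d)) :=
    (SchwartzMap.toLpCLM ℝ ℂ 1 (volume : Measure (E d))) ∘L
      (FourierTransform.fourierInvCLM ℝ 𝓢(E d, ℂ)) with hL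
  set Q : Seminorm ℝ 𝓢(E d, ℂ) := (normSeminorm ℝ (Lp ℂ 1 (volume : Measure (E d)))).comp
    L.toLinearMap with hQ
  have hQc : Continuous Q := by
    change Continuous fun f => ‖L f‖
    exact L.continuous.norm
  obtain ⟨s, C, -, hC⟩ := Seminorm.bound_of_continuous
    (schwartz_withSeminorms ℝ (E d) ℂ) Q hQc
  choose B hB using h
  refine ⟨C * (∑ j ∈ s, |B j.1 j.2|) + 1, by positivity, fun i => ?_⟩
  have h1 : ∫ x, ‖(𝓕⁻ (Θ i) : 𝓢(E d, ℂ)) x‖ = Q (Θ i) := by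
    change _ = ‖L (Θ i)‖
    rw [hL, ContinuousLinearMap.comp_apply, FourierTransform.fourierInvCLM_apply,
      SchwartzMap.toLpCLM_apply, SchwartzMap.norm_toLp_one]
  rw [h1]
  have h2 : Q (Θ i) ≤ (C • s.sup (schwartzSeminormFamily ℝ (E d) ℂ)) (Θ i) := hC (Θ i)
  have h3 : (s.sup (schwartzSeminormFamily ℝ (E d) ℂ)) (Θ i) ≤ ∑ j ∈ s, |B j.1 j.2| := by
    refine Seminorm.finset_sup_apply_le (by positivity) fun j hj => ?_
    calc (schwartzSeminormFamily ℝ (E d) ℂ j) (Θ i) ≤ B j.1 j.2 := hB j.1 j.2 i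
      _ ≤ |B j.1 j.2| := le_abs_self _
      _ ≤ ∑ j ∈ s, |B j.1 j.2| :=
          Finset.single_le_sum (f := fun j => |B j.1 j.2|) (fun _ _ => abs_nonneg _) hj
  have h4 : (C • s.sup (schwartzSeminormFamily ℝ (E d) ℂ)) (Θ i) =
      (C : ℝ) * (s.sup (schwartzSeminormFamily ℝ (E d) ℂ)) (Θ i) := rfl
  rw [h4] at h2
  have h5 : (C : ℝ) * (s.sup (schwartzSeminormFamily ℝ (E d) ℂ)) (Θ i) ≤
      C * ∑ j ∈ s, |B j.1 j.2| := mul_le_mul_of_nonneg_left h3 C.2
  linarith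

theorem e2 (n : ℕ) : S_E2 n := by
  intro ι Θ h
  obtain ⟨C, hC0, hC⟩ := fam_L1 Θ h
  refine ⟨C, hC0, fun i R hR p hp G hG => ?_⟩
  set k : 𝓢(E n, ℂ) := 𝓕⁻ (Θ i) with hk
  have hΘ : ∀ ξ : E n, Θ i (R⁻¹ • ξ) =
      ∫ q : E n, Complex.exp (((-(2 * Real.pi * ⟪R⁻¹ • q, ξ⟫) : ℝ) : ℂ) * Complex.I) * k q := by
    intro ξ
    have e1 : (𝓕 k : 𝓢(E n, ℂ)) = Θ i := FourierInvPair.fourier_fourierInv_eq (Θ i)
    rw [← e1, SchwartzMap.fourier_coe, Real.fourier_eq']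
    refine integral_congr_ae (Eventually.of_forall fun q => ?_)
    beta_reduce
    rw [smul_eq_mul, inner_smul_left, inner_smul_right]
    congr 3
    simp
  simp_rw [hΘ]
  refine (mul_bd volume (fun q : E n => R⁻¹ • q) k (by fun_prop) k.integrable hG hp).trans ?_
  have h1 : ∫⁻ q : E n, ‖k q‖ₑ ≤ ENNReal.ofReal C := by
    have h2 := ofReal_integral_norm_eq_lintegral_enorm (k.integrable (μ := volume))
    rw [← h2]
    exact ENNReal.ofReal_le_ofReal (hC i)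
  rw [← ENNReal.ofReal_rpow_of_pos hC0]
  gcongr

end Pool.Agent.T9h82.LS
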