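import Pool.Agent.T9h44.LS4.Stm

/-!
# Smooth families of multipliers (MP_ee74d2_an): S_E3 from S_E2
-/

set_option autoImplicit false

namespace Pool.Agent.T9h82.LS

open MeasureTheory Real Pool.Agent.T9h44.LS4 Pool.Agent.N303.LS
open Filter Topology Set
open scoped ENNReal SchwartzMap RealInnerProductSpace ContDiff Pointwise

theorem param_iter {P E F : Type} [NormedAddCommGroup P] [NormedSpace ℝ P]
    [NormedAddCommGroup E] [NormedSpace ℝ E] [NormedAddCommGroup F] [NormedSpace ℝ F]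
    {U : Set P} (hU : IsOpen U) {Θ : P × E → F}
    (hΘ : ContDiffOn ℝ ∞ Θ (U ×ˢ univ)) {a : P} (ha : a ∈ U) (m : ℕ) (x : E) :
    ‖iteratedFDeriv ℝ m (fun ξ : E => Θ (a, ξ)) x‖ ≤
      ‖iteratedFDerivWithin ℝ m Θ (U ×ˢ univ) (a, x)‖ := by
  have hopen : IsOpen (U ×ˢ (univ : Set E)) := hU.prod isOpen_univ
  set v : P × E := (a, 0) with hv
  set s : Set (P × E) := (fun y => v + y) ⁻¹' (U ×ˢ (univ : Set E)) with hs
  have hso : IsOpen s := hopen.preimage (by fun_prop)
  have hvs : v +ᵥ s = U ×ˢ (univ : Set E) := by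
    ext y
    rw [Set.mem_vadd_set_iff_neg_vadd_mem, hs, mem_preimage, vadd_eq_add]
    rw [add_neg_cancel_left]
  set g : E →L[ℝ] P × E := ContinuousLinearMap.inr ℝ P E with hg
  have hgv : ∀ ξ : E, v + g ξ = (a, ξ) := by
    intro ξ
    simp [hv, hg]
  have hpre : g ⁻¹' s = univ := by
    ext ξ
    simp only [mem_preimage, mem_univ, iff_true]
    rw [hs, mem_preimage, hgv]
    exact ⟨ha, mem_univ _⟩
  have hf : ContDiffOn ℝ ∞ (fun y => Θ (v + y)) s :=
    hΘ.comp (contDiff_const.add contDiff_id).contDiffOn fun y hy => hy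
  have e0 : (fun ξ : E => Θ (a, ξ)) = (fun y => Θ (v + y)) ∘ g := by
    funext ξ
    simp only [Function.comp]
    rw [hgv]
  have hgs : g x ∈ s := by
    rw [hs, mem_preimage, hgv]
    exact ⟨ha, mem_univ _⟩
  have e1 := g.iteratedFDerivWithin_comp_right hf hso.uniqueDiffOn
    (by rw [hpre]; exact uniqueDiffOn_univ) hgs (i := m) (by exact_mod_cast le_top)
  rw [hpre, iteratedFDerivWithin_univ, iteratedFDerivWithin_comp_add_left, hvs, hgv] at e1
  rw [e0, e1]
  refine (ContinuousMultilinearMap.norm_compContinuousLinearMap_le _ _).trans ?_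
  refine mul_le_of_le_one_right (norm_nonneg _) ?_
  refine Finset.prod_le_one (fun _ _ => norm_nonneg _) fun _ _ => ?_
  exact ContinuousLinearMap.norm_inr_le_one ℝ P E

theorem e3 (n : ℕ) (h : S_E2 n) : S_E3 n := by
  intro P _ _ _ U K hU hK hKU Θ hΘ S hS hzero
  have hopen : IsOpen (U ×ˢ (univ : Set (E n))) := hU.prod isOpen_univ
  have hcd : ∀ a ∈ U, ContDiff ℝ ∞ (fun ξ : E n => Θ (a, ξ)) := by
    intro a ha
    rw [contDiff_iff_contDiffAt]
    intro ξ
    have h1 : ContDiffAt ℝ ∞ Θ (a, ξ) := hΘ.contDiffAt (hopen.mem_nhds ⟨ha, mem_univ _⟩)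
    exact h1.comp ξ (contDiffAt_const.prodMk contDiffAt_id)
  have hsupp : ∀ a ∈ U, HasCompactSupport (fun ξ : E n => Θ (a, ξ)) := fun a ha =>
    HasCompactSupport.intro hS fun x hx => hzero a ha x hx
  set F : K → 𝓢(E n, ℂ) := fun a => (hsupp a (hKU a.2)).toSchwartzMap (hcd a (hKU a.2)) with hF
  have hFa : ∀ (a : K) (ξ : E n), F a ξ = Θ (a, ξ) := fun a ξ => rfl
  have hbd : ∀ k m : ℕ, ∃ C : ℝ, ∀ i, SchwartzMap.seminorm ℝ k m (F i) ≤ C := by
    intro k m
    have hc1 : ContinuousOn (fun p : P × E n => ‖iteratedFDerivWithin ℝ m Θ (U ×ˢ univ) p‖)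
        (K ×ˢ S) := by
      have := hΘ.continuousOn_iteratedFDerivWithin (m := m) (by exact_mod_cast le_top)
        hopen.uniqueDiffOn
      exact this.norm.mono (prod_mono hKU (subset_univ _))
    obtain ⟨C1, hC1⟩ := (hK.prod hS).exists_bound_of_continuousOn hc1
    obtain ⟨C2, hC2⟩ := hS.exists_bound_of_continuousOn (f := fun x : E n => ‖x‖ ^ k)
      (by fun_prop)
    refine ⟨|C2| * |C1|, fun a => ?_⟩
    refine SchwartzMap.seminorm_le_bound ℝ k m _ (by positivity) fun x => ?_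
    have ha := hKU a.2
    by_cases hx : x ∈ S
    · have h1 := hC1 (a, x) ⟨a.2, hx⟩
      have h2 := hC2 x hx
      rw [Real.norm_eq_abs, abs_of_nonneg (by positivity)] at h1
      rw [Real.norm_eq_abs, abs_of_nonneg (by positivity)] at h2
      have h3 := param_iter hU hΘ ha m x
      refine mul_le_mul (h2.trans (le_abs_self _)) ?_ (norm_nonneg _) (abs_nonneg _)
      exact (h3.trans h1).trans (le_abs_self _)
    · have h1 : iteratedFDeriv ℝ m (F a) x = 0 := by
        by_contra hne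
        have h2 : x ∈ tsupport (F a) := support_iteratedFDeriv_subset m hne
        have h3 : tsupport (F a) ⊆ S := by
          refine closure_minimal ?_ hS.isClosed
          intro y hy
          by_contra hyS
          exact hy (hzero a ha y hyS)
        exact hx (h3 h2)
      rw [h1, norm_zero, mul_zero]
      positivity
  obtain ⟨C, hC0, hC⟩ := h K F hbd
  refine ⟨C, hC0, fun a ha R hR p hp => ?_⟩
  exact hC ⟨a, ha⟩ R hR p hp

end Pool.Agent.T9h82.LS
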