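import Pool.Agent.T9h82.LS.HI

/-!
# The multipliers of the low frequencies (MP_ee74d2_an): S_LO from S_E3
-/

set_option autoImplicit false

namespace Pool.Agent.T9h82.LS

open MeasureTheory Real Pool.Agent.T9h44.LS4 Pool.Agent.N303.LS
open Filter Topology Set
open scoped ENNReal SchwartzMap RealInnerProductSpace ContDiff Pointwise Nat

variable {n : ℕ}

/-! ### Two entire functions -/

theorem entire_of_bound (c : ℕ → ℂ) (hc : ∀ k, ‖c k‖ ≤ 1 / (k ! : ℝ)) :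
    Differentiable ℂ (fun w : ℂ => ∑' k, c k * w ^ k) := by
  intro w0
  have hsum : Summable fun k : ℕ => (‖w0‖ + 1) ^ k / (k ! : ℝ) :=
    Real.summable_pow_div_factorial _
  have h := Complex.differentiableOn_tsum_of_summable_norm (F := fun (k : ℕ) (w : ℂ) => c k * w ^ k)
    (U := Metric.ball (0 : ℂ) (‖w0‖ + 1)) hsum
    (fun k => by fun_prop) Metric.isOpen_ball (fun k w hw => by
      have hw' : ‖w‖ < ‖w0‖ + 1 := by simpa using hw
      rw [norm_mul, norm_pow]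
      calc ‖c k‖ * ‖w‖ ^ k ≤ 1 / (k ! : ℝ) * (‖w0‖ + 1) ^ k := by
            refine mul_le_mul (hc k) ?_ (by positivity) (by positivity)
            exact pow_le_pow_left₀ (norm_nonneg _) hw'.le k
        _ = _ := by ring)
  refine (h w0 ?_).differentiableAt (Metric.isOpen_ball.mem_nhds ?_) <;>
  · simp

/-- `cos √w` -/
noncomputable def Phc (w : ℂ) : ℂ := ∑' k : ℕ, ((-1) ^ k / ((2 * k)! : ℂ)) * w ^ k

/-- `sin √w / √w` -/
noncomputable def Phs (w : ℂ) : ℂ := ∑' k : ℕ, ((-1) ^ k / ((2 * k + 1)! : ℂ)) * w ^ k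

theorem Phc_contDiff : ContDiff ℝ ∞ Phc := by
  refine ContDiff.restrict_scalars ℝ (𝕜' := ℂ) ?_
  refine Differentiable.contDiff (entire_of_bound _ fun k => ?_)
  rw [norm_div, norm_pow, norm_neg, norm_one, one_pow, Complex.norm_natCast]
  refine one_div_le_one_div_of_le (by positivity) ?_
  exact_mod_cast Nat.factorial_le (by omega)

theorem Phs_contDiff : ContDiff ℝ ∞ Phs := by
  refine ContDiff.restrict_scalars ℝ (𝕜' := ℂ) ?_
  refine Differentiable.contDiff (entire_of_bound _ fun k => ?_)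
  rw [norm_div, norm_pow, norm_neg, norm_one, one_pow, Complex.norm_natCast]
  refine one_div_le_one_div_of_le (by positivity) ?_
  exact_mod_cast Nat.factorial_le (by omega)

theorem Phc_sq (z : ℂ) : Phc (z ^ 2) = Complex.cos z := by
  unfold Phc
  rw [← (Complex.hasSum_cos z).tsum_eq]
  refine tsum_congr fun k => ?_
  rw [← pow_mul]
  ring

theorem Phs_sq (z : ℂ) : z * Phs (z ^ 2) = Complex.sin z := by
  unfold Phs
  rw [← (Complex.hasSum_sin z).tsum_eq, ← tsum_mul_left]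
  refine tsum_congr fun k => ?_
  rw [← pow_mul, pow_succ]
  ring

/-! ### Bounded multipliers -/

theorem MulB.mono {C C' p : ℝ} {m : E n → ℂ} (hC : 0 ≤ C) (hCC : C ≤ C') (hp : 0 ≤ p)
    (h : MulB C p m) : MulB C' p m := by
  intro G hG
  refine (h G hG).trans ?_
  gcongr

theorem MulB.congr_ae {C p : ℝ} {m m' : E n → ℂ} (hm : m =ᵐ[volume] m') (h : MulB C p m) :
    MulB C p m' := by
  intro G hG
  have e : inv (fun ξ => m' ξ * G ξ) = inv (fun ξ => m ξ * G ξ) := by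
    funext x
    unfold inv
    refine integral_congr_ae ?_
    filter_upwards [hm] with ξ hξ
    rw [hξ]
  rw [e]
  exact h G hG

theorem MulB.zero {C p : ℝ} (hp : 0 < p) : MulB (n := n) C p (fun _ => 0) := by
  intro G _
  have e : inv (fun ξ => (0 : ℂ) * G ξ) = fun _ => 0 := by
    funext x
    unfold inv
    simp
  rw [e]
  simp [ENNReal.zero_rpow_of_pos hp]

/-- the common part of the two families -/
theorem fam (n : ℕ) (h : S_E3 n) (a : ℝ) (f₀ : E n → ℝ) (hf0 : ContDiff ℝ ∞ f₀)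
    (h2 : ∀ η, 2 < ‖η‖ → f₀ η = 0) (Ph : ℂ → ℂ) (hPh : ContDiff ℝ ∞ Ph) (j : ℕ) :
    ∃ C : ℝ, 0 < C ∧ ∀ t ∈ Set.Icc (1 : ℝ) 2, ∀ γ : Fin n → ℝ, (∀ i, γ i ∈ Set.Icc (1 / 2 : ℝ) 1) →
    ∀ p : ℝ, 1 ≤ p →
      MulB C p (fun ξ => (t : ℂ) ^ j * Ph (((2 * π * t) ^ 2 * Qd γ ξ : ℝ) : ℂ) *
        (((1 + 4 * π ^ 2 * ‖ξ‖ ^ 2) ^ a * f₀ ξ : ℝ) : ℂ)) := by
  set K : Set (ℝ × (Fin n → ℝ)) :=
    Icc (1 : ℝ) 2 ×ˢ (Set.univ.pi fun _ => Icc (1 / 2 : ℝ) 1) with hK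
  have hKc : IsCompact K := isCompact_Icc.prod (isCompact_univ_pi fun _ => isCompact_Icc)
  set Θ : (ℝ × (Fin n → ℝ)) × E n → ℂ := fun q =>
    (q.1.1 : ℂ) ^ j * Ph (((2 * π * q.1.1) ^ 2 * Qd q.1.2 q.2 : ℝ) : ℂ) *
        (((1 + 4 * π ^ 2 * ‖q.2‖ ^ 2) ^ a * f₀ q.2 : ℝ) : ℂ) with hΘ
  have hsm : ContDiff ℝ ∞ Θ := by
    have d0 : ContDiff ℝ ∞ (fun q : (ℝ × (Fin n → ℝ)) × E n => q.1.1) := by fun_prop
    have d1 : ContDiff ℝ ∞ (fun q : (ℝ × (Fin n → ℝ)) × E n => Qd q.1.2 q.2) := by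
      have : ContDiff ℝ ∞ (fun q : (ℝ × (Fin n → ℝ)) × E n => (q.1.2, q.2)) := by fun_prop
      exact contDiff_Qd.comp this
    have d2 : ContDiff ℝ ∞ (fun q : (ℝ × (Fin n → ℝ)) × E n => ‖q.2‖ ^ 2) :=
      (contDiff_norm_sq ℝ).comp contDiff_snd
    have d3 : ContDiff ℝ ∞ (fun q : (ℝ × (Fin n → ℝ)) × E n =>
        (1 + 4 * π ^ 2 * ‖q.2‖ ^ 2) ^ a) := by
      refine ContDiff.rpow_const_of_ne (contDiff_const.add (contDiff_const.mul d2)) fun q => ?_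
      positivity
    have d4 : ContDiff ℝ ∞ (fun q : (ℝ × (Fin n → ℝ)) × E n => f₀ q.2) := hf0.comp contDiff_snd
    have d5 : ContDiff ℝ ∞ (fun q : (ℝ × (Fin n → ℝ)) × E n =>
        (((1 + 4 * π ^ 2 * ‖q.2‖ ^ 2) ^ a * f₀ q.2 : ℝ) : ℂ)) :=
      Complex.ofRealCLM.contDiff.comp (d3.mul d4)
    have d6 : ContDiff ℝ ∞ (fun q : (ℝ × (Fin n → ℝ)) × E n =>
        (((2 * π * q.1.1) ^ 2 * Qd q.1.2 q.2 : ℝ) : ℂ)) :=
      Complex.ofRealCLM.contDiff.comp (((contDiff_const.mul d0).pow 2).mul d1)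
    have d7 : ContDiff ℝ ∞ (fun q : (ℝ × (Fin n → ℝ)) × E n => (q.1.1 : ℂ) ^ j) :=
      (Complex.ofRealCLM.contDiff.comp d0).pow j
    exact (d7.mul (hPh.comp d6)).mul d5
  have hz : ∀ p ∈ (univ : Set (ℝ × (Fin n → ℝ))), ∀ ξ ∉ Metric.closedBall (0 : E n) 2,
      Θ (p, ξ) = 0 := by
    intro p _ ξ hξ
    have hξ' : 2 < ‖ξ‖ := by
      by_contra hcon
      exact hξ (by simpa using not_lt.1 hcon)
    rw [hΘ]
    beta_reduce
    rw [h2 _ hξ', mul_zero, Complex.ofReal_zero, mul_zero]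
  obtain ⟨C, hC0, hC⟩ := h _ univ K isOpen_univ hKc (subset_univ _) Θ hsm.contDiffOn _
    (isCompact_closedBall 0 2) hz
  refine ⟨C, hC0, fun t ht γ hγ p hp => ?_⟩
  have := hC (t, γ) ⟨ht, fun i _ => hγ i⟩ 1 one_pos p hp
  simpa only [inv_one, one_smul] using this

theorem lo (n : ℕ) (h : S_E3 n) : S_LO n := by
  intro a f₀ hf0 h2
  obtain ⟨C1, hC10, hC1⟩ := fam n h a f₀ hf0 h2 Phc Phc_contDiff 0
  obtain ⟨C2, hC20, hC2⟩ := fam n h a f₀ hf0 h2 Phs Phs_contDiff 1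
  refine ⟨max C1 C2, lt_max_of_lt_left hC10, fun t ht γ hγ p hp => ⟨?_, ?_⟩⟩
  · refine MulB.mono hC10.le (le_max_left _ _) (by linarith) ?_
    refine MulB.congr_ae (Eventually.of_forall fun ξ => ?_) (hC1 t ht γ hγ p hp)
    have hQ : 0 ≤ Qd γ ξ := Qd_nonneg (fun i => by have := (hγ i).1; linarith) ξ
    beta_reduce
    have e : (((2 * π * t) ^ 2 * Qd γ ξ : ℝ) : ℂ) =
        ((2 * π * t * Real.sqrt (Qd γ ξ) : ℝ) : ℂ) ^ 2 := by
      rw [← Complex.ofReal_pow, mul_pow (2 * π * t), Real.sq_sqrt hQ]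
    rw [e, Phc_sq, pow_zero, one_mul, ← Complex.ofReal_cos, ← Complex.ofReal_mul,
      mul_assoc (Real.cos _)]
  · rcases Nat.eq_zero_or_pos n with hn | hn
    · subst hn
      refine MulB.congr_ae (m := fun _ => 0) (Eventually.of_forall fun ξ => ?_)
        (MulB.zero (by linarith))
      have hQ : Qd γ ξ = 0 := by simp [Qd]
      beta_reduce
      rw [hQ, Real.sqrt_zero, mul_zero, mul_zero, div_zero, zero_mul, zero_mul, Complex.ofReal_zero]
    · have : Nonempty (Fin n) := ⟨⟨0, hn⟩⟩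
      refine MulB.mono hC20.le (le_max_right _ _) (by linarith) ?_
      have hne : ∀ᵐ ξ : E n, ξ ≠ 0 := by
        rw [ae_iff]
        simp only [not_not, ofPred_eq_eq_singleton]
        exact measure_singleton _
      refine MulB.congr_ae ?_ (hC2 t ht γ hγ p hp)
      filter_upwards [hne] with ξ hξ
      have hQ : 0 < Qd γ ξ := Qd_pos (fun i => by have := (hγ i).1; linarith) hξ
      have hs : 0 < Real.sqrt (Qd γ ξ) := Real.sqrt_pos.2 hQ
      have e : (((2 * π * t) ^ 2 * Qd γ ξ : ℝ) : ℂ) =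
          ((2 * π * t * Real.sqrt (Qd γ ξ) : ℝ) : ℂ) ^ 2 := by
        rw [← Complex.ofReal_pow, mul_pow (2 * π * t), Real.sq_sqrt hQ.le]
      have hs' : (Real.sqrt (Qd γ ξ) : ℂ) ≠ 0 := Complex.ofReal_ne_zero.2 hs.ne'
      have hπ : (π : ℂ) ≠ 0 := Complex.ofReal_ne_zero.2 Real.pi_ne_zero
      have e2 := Phs_sq (((2 * π * t * Real.sqrt (Qd γ ξ) : ℝ) : ℂ))
      rw [e]
      generalize Phs ((((2 * π * t * Real.sqrt (Qd γ ξ) : ℝ) : ℂ)) ^ 2) = P at e2 ⊢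
      rw [mul_assoc (Real.sin _ / _), Complex.ofReal_mul (Real.sin _ / _), Complex.ofReal_div,
        Complex.ofReal_sin, ← e2, pow_one]
      congr 1
      push_cast
      field_simp

end Pool.Agent.T9h82.LS
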