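import Pool.Agent.T9h44.LS4.Stm2
import Pool.Agent.N558.LS.MUL
import Pool.Agent.T9h82.LS.KHat

/-!
# The regularised wave is the convolution with the kernel (MP_ee74d2_an): LinkSt
-/

set_option autoImplicit false

namespace Pool.Agent.T9h82.LS

open MeasureTheory Real Pool.Agent.T9h44.LS4 Pool.Agent.N303.LS
open Filter Topology Set
open scoped ENNReal SchwartzMap RealInnerProductSpace FourierTransform

variable {n : ℕ}

theorem exp_eq_hat (hn : 1 ≤ n) {g : Fin n → ℝ} (hg : ∀ i, 0 < g i) {y t : ℝ} (hy : 0 < y)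
    (ht : 0 < t) (ξ : E n) :
    Complex.exp (2 * π * Complex.I * (Ng g ξ : ℝ) * tau y t) =
      ((((∏ i, g i) ^ (1 / 2 : ℝ) : ℝ) : ℂ) *
        Complex.exp (Complex.I * (π * ((n : ℝ) - 1) / 4 : ℝ)) * tau y t) *
      ∫ q : Fin n → ℝ, Complex.exp (((-(2 * Real.pi * ⟪(WithLp.toLp 2 q : E n), ξ⟫) : ℝ) : ℂ) *
          Complex.I) * Ker n y (t ^ 2 - y ^ 2 / t ^ 2) g q := by
  have h := kHat n hn g hg y t hy ht ξ.ofLp
  have e1 : ∀ q : Fin n → ℝ, ⟪(WithLp.toLp 2 q : E n), ξ⟫ = ∑ i, q i * ξ i := by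
    intro q
    rw [PiLp.inner_apply]
    refine Finset.sum_congr rfl fun i _ => ?_
    simp [mul_comm]
  simp_rw [e1]
  rw [h]
  have hP : 0 < ∏ i, g i := Finset.prod_pos fun i _ => hg i
  have e2 : ((((∏ i, g i) ^ (1 / 2 : ℝ) : ℝ) : ℂ)) * ((((∏ i, g i) ^ (-(1 / 2) : ℝ) : ℝ) : ℂ)) = 1 := by
    rw [← Complex.ofReal_mul, ← Real.rpow_add hP, add_neg_cancel, Real.rpow_zero,
      Complex.ofReal_one]
  have e3 : Complex.exp (Complex.I * (π * ((n : ℝ) - 1) / 4 : ℝ)) *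
      Complex.exp (-(Complex.I * (π * ((n : ℝ) - 1) / 4 : ℝ))) = 1 := by
    rw [← Complex.exp_add, add_neg_cancel, Complex.exp_zero]
  have hτ : tau y t ≠ 0 := by
    intro h0
    have : (tau y t).re = 0 := by rw [h0, Complex.zero_re]
    unfold tau at this
    simp at this
    linarith
  have e4 : tau y t / tau y t = 1 := div_self hτ
  have e5 : Nm g ξ.ofLp = Ng g ξ := rfl
  rw [e5]
  generalize Complex.exp (2 * π * Complex.I * (Ng g ξ : ℝ) * tau y t) = X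
  generalize Complex.exp (Complex.I * (π * ((n : ℝ) - 1) / 4 : ℝ)) = Y at e3 ⊢
  generalize Complex.exp (-(Complex.I * (π * ((n : ℝ) - 1) / 4 : ℝ))) = Y' at e3 ⊢
  generalize ((((∏ i, g i) ^ (1 / 2 : ℝ) : ℝ) : ℂ)) = a at e2 ⊢
  generalize ((((∏ i, g i) ^ (-(1 / 2) : ℝ) : ℝ) : ℂ)) = a' at e2 ⊢
  have : a * Y * tau y t * (a' * Y' / tau y t * X) = (a * a') * (Y * Y') * (tau y t / tau y t) * X := by
    ring
  rw [this, e2, e3, e4, one_mul, one_mul, one_mul]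

/-- **C6** -/
theorem link (n : ℕ) (hn : 1 ≤ n) : LinkSt n := by
  intro g hg y t hy ht h x
  set c : ℂ := ((((∏ i, g i) ^ (1 / 2 : ℝ) : ℝ) : ℂ) *
        Complex.exp (Complex.I * (π * ((n : ℝ) - 1) / 4 : ℝ)) * tau y t) with hc
  set w := t ^ 2 - y ^ 2 / t ^ 2 with hw
  have e1 : inv (fun ξ => Complex.exp (2 * π * Complex.I * (Ng g ξ : ℝ) * tau y t) *
        𝓕 (h : E n → ℂ) ξ) x =
      c * inv (fun ξ => (∫ q : Fin n → ℝ, Complex.exp (((-(2 * Real.pi *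
          ⟪(WithLp.toLp 2 q : E n), ξ⟫) : ℝ) : ℂ) *
          Complex.I) * Ker n y w g q) * 𝓕 (h : E n → ℂ) ξ) x := by
    unfold inv
    rw [← integral_const_mul]
    refine integral_congr_ae (Eventually.of_forall fun ξ => ?_)
    beta_reduce
    rw [exp_eq_hat hn hg hy ht ξ]
    ring
  rw [e1, Pool.Agent.N558.LS.inv_mul_eq volume (fun q : Fin n → ℝ => (WithLp.toLp 2 q : E n))
    (Ker n y w g) (by fun_prop) (integrable_Ker hn hy w hg) h x]
  congr 1
  rw [← integral_sub_left_eq_self (fun q : Fin n → ℝ => Ker n y w g q * h (x - WithLp.toLp 2 q))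
    volume x.ofLp]
  refine integral_congr_ae (Eventually.of_forall fun u => ?_)
  beta_reduce
  congr 2
  ext i
  simp

end Pool.Agent.T9h82.LS
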